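import Pool.Agent.Work.MP_7da6af_nt.Rat.Star
import Pool.Agent.Work.MP_7da6af_nt.Crv.TriIrr

/-! # The ideal of a rational curve -/

set_option autoImplicit false

namespace Pool.Agent.Work.MP_7da6af_nt.Rat

open Polynomial
open Pool.Agent.Work.MP_7da6af_nt.Crv (P3 e3 On mp IsCurve)

variable {s : ℕ} (a : Fin s → Om) (n : Fin s → Fin 3 → ℤ) (c : Fin 3 → Om)

/-- the ideal of the curve -/
def idl : Ideal (P3 Om) where
  carrier := {f | ∀ y : Om, (∀ i, y ≠ a i) → MvPolynomial.eval (F a n c y) f = 0}
  zero_mem' := fun y _ => map_zero _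
  add_mem' := fun {f g} hf hg y hy => by rw [map_add, hf y hy, hg y hy, add_zero]
  smul_mem' := fun g f hf y hy => by rw [smul_eq_mul, map_mul, hf y hy, mul_zero]

theorem mem_idl (f : P3 Om) : f ∈ idl a n c ↔
    ∀ y : Om, (∀ i, y ≠ a i) → MvPolynomial.eval (F a n c y) f = 0 := Iff.rfl

/-- the denominator -/
noncomputable def dn : Om[X] := ∏ i, (X - C (a i))

theorem dn_eval (y : Om) : (dn a).eval y = ∏ i, (y - a i) := by
  unfold dn
  rw [eval_prod]
  simp

theorem dn_ne_zero (y : Om) (hy : ∀ i, y ≠ a i) : (dn a).eval y ≠ 0 := by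
  rw [dn_eval]
  exact Finset.prod_ne_zero_iff.mpr fun i _ => sub_ne_zero.mpr (hy i)

theorem idl_poly (f : P3 Om) : ∃ (p : Om[X]) (k : ℕ), ∀ y : Om, (∀ i, y ≠ a i) →
    MvPolynomial.eval (F a n c y) f * (dn a).eval y ^ k = p.eval y := by
  induction f using MvPolynomial.induction_on with
  | C b =>
    refine ⟨C b, 0, fun y _ => ?_⟩
    rw [MvPolynomial.eval_C, pow_zero, mul_one, eval_C]
  | add f g hf hg =>
    obtain ⟨p, k, hp⟩ := hf
    obtain ⟨q, l, hq⟩ := hg
    refine ⟨p * dn a ^ l + q * dn a ^ k, k + l, fun y hy => ?_⟩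
    rw [map_add, eval_add, eval_mul, eval_mul, eval_pow, eval_pow, ← hp y hy, ← hq y hy]
    ring
  | mul_X f l hf =>
    obtain ⟨p, k, hp⟩ := hf
    set N : ℕ := ∑ i, (n i l).natAbs with hN
    refine ⟨p * (C (c l) * ∏ i, (X - C (a i)) ^ (n i l + N).toNat), k + N, fun y hy => ?_⟩
    rw [map_mul, MvPolynomial.eval_X, eval_mul, eval_mul, ← hp y hy, eval_C, eval_prod, pow_add]
    have h1 : F a n c y l * (dn a).eval y ^ N =
        c l * ∏ i, ((X - C (a i)) ^ (n i l + N).toNat).eval y := by
      unfold F G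
      rw [dn_eval, ← Finset.prod_pow, mul_assoc, ← Finset.prod_mul_distrib]
      congr 1
      refine Finset.prod_congr rfl fun i _ => ?_
      have h0 : y - a i ≠ 0 := sub_ne_zero.mpr (hy i)
      have h2 : (n i l).natAbs ≤ N := Finset.single_le_sum (f := fun i => (n i l).natAbs)
        (fun _ _ => Nat.zero_le _) (Finset.mem_univ i)
      rw [eval_pow, eval_sub, eval_X, eval_C, ← zpow_natCast, ← zpow_natCast, ← zpow_add₀ h0,
        Int.toNat_of_nonneg (by omega)]
    rw [← h1]
    ring

theorem infinite_params : {y : Om | ∀ i, y ≠ a i}.Infinite := by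
  have h : {y : Om | ∀ i, y ≠ a i} = (Set.range a)ᶜ := by
    ext y
    simp only [Set.mem_ofPred_eq, Set.mem_compl_iff, Set.mem_range, not_exists]
    exact ⟨fun h i hi => h i hi.symm, fun h i hi => h i hi.symm⟩
  rw [h]
  exact (Set.finite_range a).infinite_compl

theorem poly_zero (p : Om[X]) (h : ∀ y : Om, (∀ i, y ≠ a i) → p.eval y = 0) : p = 0 :=
  eq_zero_of_infinite_isRoot _ ((infinite_params a).mono fun y hy => h y hy)

theorem idl_prime : (idl a n c).IsPrime := by
  refine ⟨?_, ?_⟩
  · intro h
    obtain ⟨y, hy⟩ := (infinite_params a).nonempty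
    have h1 : (1 : P3 Om) ∈ idl a n c := by
      rw [h]
      trivial
    have := h1 y hy
    rw [map_one] at this
    exact one_ne_zero this
  · intro f g hfg
    obtain ⟨p, k, hp⟩ := idl_poly a n c f
    obtain ⟨q, l, hq⟩ := idl_poly a n c g
    have h1 : p * q = 0 := by
      refine poly_zero a _ fun y hy => ?_
      have := hfg y hy
      rw [map_mul] at this
      rw [eval_mul, ← hp y hy, ← hq y hy]
      calc _ = (MvPolynomial.eval (F a n c y) f * MvPolynomial.eval (F a n c y) g) *
            ((dn a).eval y ^ k * (dn a).eval y ^ l) := by ring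
        _ = 0 := by rw [this, zero_mul]
    rcases mul_eq_zero.mp h1 with h2 | h2
    · left
      intro y hy
      have := hp y hy
      rw [h2, eval_zero] at this
      exact (mul_eq_zero.mp this).resolve_right (pow_ne_zero _ (dn_ne_zero a y hy))
    · right
      intro y hy
      have := hq y hy
      rw [h2, eval_zero] at this
      exact (mul_eq_zero.mp this).resolve_right (pow_ne_zero _ (dn_ne_zero a y hy))

theorem idl_dep (f g : P3 Om) :
    ∃ R : MvPolynomial (Fin 2) Om, R ≠ 0 ∧ MvPolynomial.aeval ![f, g] R ∈ idl a n c := by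
  classical
  obtain ⟨p, k, hp⟩ := idl_poly a n c f
  obtain ⟨q, l, hq⟩ := idl_poly a n c g
  set M : ℕ := p.natDegree + q.natDegree + (k + l) * (dn a).natDegree with hM
  set D : ℕ := M + 1 with hD
  let r : Fin (D + 1) × Fin (D + 1) → Om[X] := fun ij =>
    p ^ (ij.1 : ℕ) * q ^ (ij.2 : ℕ) * dn a ^ (k * (D - ij.1) + l * (D - ij.2))
  have hr : ∀ ij, (r ij).natDegree < M * D + 1 := by
    intro ij
    have h1 : (ij.1 : ℕ) ≤ D := by have := ij.1.isLt; omega
    have h2 : (ij.2 : ℕ) ≤ D := by have := ij.2.isLt; omega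
    have e1 : (r ij).natDegree ≤ (ij.1 : ℕ) * p.natDegree + (ij.2 : ℕ) * q.natDegree +
        (k * (D - ij.1) + l * (D - ij.2)) * (dn a).natDegree := by
      refine (natDegree_mul_le).trans (add_le_add ((natDegree_mul_le).trans
        (add_le_add natDegree_pow_le natDegree_pow_le)) natDegree_pow_le)
    have e2 : (ij.1 : ℕ) * p.natDegree ≤ D * p.natDegree := Nat.mul_le_mul_right _ h1
    have e3 : (ij.2 : ℕ) * q.natDegree ≤ D * q.natDegree := Nat.mul_le_mul_right _ h2
    have e4 : (k * (D - ij.1) + l * (D - ij.2)) * (dn a).natDegree ≤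
        (k * D + l * D) * (dn a).natDegree :=
      Nat.mul_le_mul_right _ (add_le_add (Nat.mul_le_mul_left _ (Nat.sub_le _ _))
        (Nat.mul_le_mul_left _ (Nat.sub_le _ _)))
    have e5 : M * D = D * p.natDegree + D * q.natDegree + (k * D + l * D) * (dn a).natDegree := by
      rw [hM]
      ring
    omega
  let v : Fin (D + 1) × Fin (D + 1) → (Fin (M * D + 1) → Om) := fun ij m => (r ij).coeff m
  have hnot : ¬ LinearIndependent Om v := by
    intro h
    have h1 := h.fintype_card_le_finrank
    rw [Module.finrank_fintype_fun_eq_card, Fintype.card_prod, Fintype.card_fin,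
      Fintype.card_fin] at h1
    have : M * D + 1 < (D + 1) * (D + 1) := by
      rw [hD]
      nlinarith
    omega
  rw [Fintype.not_linearIndependent_iff] at hnot
  obtain ⟨β, hβ, m₀, hm₀⟩ := hnot
  let em : Fin (D + 1) × Fin (D + 1) → (Fin 2 →₀ ℕ) := fun ij =>
    Finsupp.equivFunOnFinite.symm ![(ij.1 : ℕ), (ij.2 : ℕ)]
  have hem : Function.Injective em := by
    intro m m' h
    have h0 := DFunLike.congr_fun h 0
    have h1 := DFunLike.congr_fun h 1
    exact Prod.ext (Fin.ext h0) (Fin.ext h1)
  refine ⟨∑ ij, MvPolynomial.monomial (em ij) (β ij), ?_, ?_⟩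
  · intro h0
    have h1 := congrArg (MvPolynomial.coeff (em m₀)) h0
    rw [MvPolynomial.coeff_sum, MvPolynomial.coeff_zero, Finset.sum_eq_single m₀] at h1
    · rw [MvPolynomial.coeff_monomial, if_pos rfl] at h1
      exact hm₀ h1
    · intro m _ hm
      rw [MvPolynomial.coeff_monomial, if_neg fun h => hm (hem h)]
    · intro h
      exact absurd (Finset.mem_univ _) h
  · intro y hy
    have hd := dn_ne_zero a y hy
    have hzero : ∑ ij, β ij * (r ij).eval y = 0 := by
      have h1 : ∀ ij, (r ij).eval y = ∑ m : Fin (M * D + 1), v ij m * y ^ (m : ℕ) := by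
        intro ij
        rw [eval_eq_sum_range' (hr ij), Finset.sum_range]
      simp only [h1, Finset.mul_sum]
      rw [Finset.sum_comm]
      refine Finset.sum_eq_zero fun m _ => ?_
      have h2 := congrFun hβ m
      simp only [Finset.sum_apply, Pi.smul_apply, smul_eq_mul, Pi.zero_apply] at h2
      calc _ = (∑ ij, β ij * v ij m) * y ^ (m : ℕ) := by
            rw [Finset.sum_mul]
            refine Finset.sum_congr rfl fun ij _ => ?_
            ring
        _ = 0 := by rw [h2, zero_mul]
    have hterm : ∀ ij, MvPolynomial.eval (F a n c y)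
        (MvPolynomial.aeval ![f, g] (MvPolynomial.monomial (em ij) (β ij))) *
          (dn a).eval y ^ ((k + l) * D) = β ij * (r ij).eval y := by
      intro ij
      have h1 : (ij.1 : ℕ) ≤ D := by have := ij.1.isLt; omega
      have h2 : (ij.2 : ℕ) ≤ D := by have := ij.2.isLt; omega
      rw [MvPolynomial.aeval_monomial, Finsupp.prod_fintype _ _ (fun _ => pow_zero _),
        Fin.prod_univ_two]
      have e1 : em ij 0 = (ij.1 : ℕ) := rfl
      have e2 : em ij 1 = (ij.2 : ℕ) := rfl
      rw [e1, e2]
      simp only [Matrix.cons_val_zero, Matrix.cons_val_one, map_mul, map_pow,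
        MvPolynomial.algebraMap_eq, MvPolynomial.eval_C]
      simp only [r, eval_mul, eval_pow]
      rw [← hp y hy, ← hq y hy, mul_pow, mul_pow, ← pow_mul, ← pow_mul]
      have e3 : (k + l) * D = k * (ij.1 : ℕ) + l * (ij.2 : ℕ) +
          (k * (D - ij.1) + l * (D - ij.2)) := by
        have e4 : k * D = k * (ij.1 : ℕ) + k * (D - ij.1) := by
          rw [← mul_add, Nat.add_sub_cancel' h1]
        have e5 : l * D = l * (ij.2 : ℕ) + l * (D - ij.2) := by
          rw [← mul_add, Nat.add_sub_cancel' h2]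
        rw [add_mul]
        omega
      rw [e3, pow_add, pow_add]
      ring
    rw [map_sum, map_sum]
    have h2 : (∑ ij, MvPolynomial.eval (F a n c y)
        (MvPolynomial.aeval ![f, g] (MvPolynomial.monomial (em ij) (β ij)))) *
          (dn a).eval y ^ ((k + l) * D) = 0 := by
      rw [Finset.sum_mul]
      simp only [hterm]
      exact hzero
    exact (mul_eq_zero.mp h2).resolve_right (pow_ne_zero _ hd)

/-- values of the monomials -/
theorem eval_mp' {K : Type} [Field K] (φ : Om →+* K) (t : Fin 3 → K) (ht : ∀ l, t l ≠ 0)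
    (m : Fin 3 → ℤ) :
    e3 φ t (mp Om m) = (∏ l, t l ^ m l) * e3 φ t (mp Om (-m)) := by
  have h : ∀ m : Fin 3 → ℤ, e3 φ t (mp Om m) = ∏ l, t l ^ (m l).toNat := by
    intro m
    unfold mp e3
    rw [MvPolynomial.eval₂_prod]
    refine Finset.prod_congr rfl fun l _ => ?_
    rw [MvPolynomial.eval₂_pow, MvPolynomial.eval₂_X]
  rw [h, h, ← Finset.prod_mul_distrib]
  refine Finset.prod_congr rfl fun l _ => ?_
  rw [← zpow_natCast, ← zpow_natCast, ← zpow_add₀ (ht l), Pi.neg_apply]
  congr 1
  omega

theorem mp_ne_zero {K : Type} [Field K] (φ : Om →+* K) (t : Fin 3 → K) (ht : ∀ l, t l ≠ 0)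
    (m : Fin 3 → ℤ) : e3 φ t (mp Om m) ≠ 0 := by
  unfold mp e3
  rw [MvPolynomial.eval₂_prod]
  refine Finset.prod_ne_zero_iff.mpr fun l _ => ?_
  rw [MvPolynomial.eval₂_pow, MvPolynomial.eval₂_X]
  exact pow_ne_zero _ (ht l)

theorem e3_id (t : Fin 3 → Om) (f : P3 Om) : e3 (RingHom.id Om) t f = MvPolynomial.eval t f := rfl

theorem isCurve_idl (ha : Function.Injective a) (hc : ∀ l, c l ≠ 0)
    (hind : ∀ κ : Fin 3 → ℤ, κ ≠ 0 → ex n κ ≠ 0) : IsCurve (idl a n c) where
  prime := idl_prime a n c
  coord := by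
    intro l h
    obtain ⟨y, hy⟩ := (infinite_params a).nonempty
    have := h y hy
    rw [MvPolynomial.eval_X] at this
    exact F_ne_zero a n c hc y hy l this
  dep := idl_dep a n c
  indep := by
    classical
    intro m hm R hR hmem
    have key : ∀ y : Om, (∀ i, y ≠ a i) → R.eval ((∏ l, c l ^ m l) * G a (ex n m) y) = 0 := by
      intro y hy
      have hF : ∀ l, F a n c y l ≠ 0 := F_ne_zero a n c hc y hy
      have h5 := hmem y hy
      have hB := mp_ne_zero (RingHom.id Om) (F a n c y) hF (-m)
      have hmm := eval_mp' (RingHom.id Om) (F a n c y) hF m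
      rw [e3_id] at hB
      rw [e3_id, e3_id, prod_F a n c y hy m] at hmm
      have h6 : R.eval ((∏ l, c l ^ m l) * G a (ex n m) y) *
          MvPolynomial.eval (F a n c y) (mp Om (-m)) ^ R.natDegree = 0 := by
        rw [← h5, Polynomial.eval_eq_sum_range, Finset.sum_mul, map_sum]
        refine Finset.sum_congr rfl fun i hi => ?_
        rw [Finset.mem_range] at hi
        rw [map_mul, map_mul, map_pow, map_pow, MvPolynomial.eval_C, hmm, mul_pow]
        have e1 : R.natDegree = i + (R.natDegree - i) := by omega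
        conv_lhs => rw [e1, pow_add]
        ring
      exact (mul_eq_zero.mp h6).resolve_right (pow_ne_zero _ hB)
    have hcm : ∏ l, c l ^ m l ≠ 0 :=
      Finset.prod_ne_zero_iff.mpr fun l _ => zpow_ne_zero _ (hc l)
    have hfin : {y : Om | ∀ i, y ≠ a i}.Finite := by
      refine (R.roots.toFinset.finite_toSet.biUnion fun ξ _ =>
        finite_level a ha (ex n m) (hind m hm) (ξ / ∏ l, c l ^ m l)).subset ?_
      intro y hy
      refine Set.mem_biUnion (x := (∏ l, c l ^ m l) * G a (ex n m) y) ?_ ⟨hy, ?_⟩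
      · rw [Finset.mem_coe, Multiset.mem_toFinset, mem_roots hR]
        exact key y hy
      · rw [mul_div_cancel_left₀ _ hcm]
    exact infinite_params a hfin

/-- every zero of the ideal in the torus is a point of the curve -/
theorem surj (hc : ∀ l, c l ≠ 0) (hn : ∀ i, n i ≠ 0) (ha : Function.Injective a)
    (hinf : cv n none ≠ 0) {K : Type} [Field K] [IsAlgClosed K] (φ : Om →+* K) (t : Fin 3 → K)
    (ht : On (idl a n c) φ t) :
    ∃ y : K, (∀ i, y ≠ φ (a i)) ∧
      ∀ l, t l = F (fun i => φ (a i)) n (fun l => φ (c l)) y l := by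
  classical
  obtain ⟨ht0, htI⟩ := ht
  -- a monomial with a zero or a pole at infinity
  obtain ⟨m, hm⟩ : ∃ m : Fin 3 → ℤ, cusp (ex n m) none ≠ 0 := by
    obtain ⟨l, hl⟩ : ∃ l, cv n none l ≠ 0 := by
      by_contra h
      push Not at h
      exact hinf (funext h)
    refine ⟨Pi.single l 1, ?_⟩
    rw [cusp_ex, Finset.sum_eq_single l]
    · rw [Pi.single_eq_same, one_mul]
      exact hl
    · intro j _ hj
      rw [Pi.single_eq_of_ne hj, zero_mul]
    · intro h
      exact absurd (Finset.mem_univ l) h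
  set P : Om[X] := num a (ex n m) with hP
  set Q : Om[X] := num a (-ex n m) with hQ
  set γ : Om := ∏ l, c l ^ m l with hγ
  have hγ0 : γ ≠ 0 := Finset.prod_ne_zero_iff.mpr fun l _ => zpow_ne_zero _ (hc l)
  have hdeg : P.natDegree ≠ Q.natDegree := by
    rw [hP, hQ, num_natDegree, num_natDegree]
    intro h
    apply hm
    have h1 : ((∑ i, (ex n m i).toNat : ℕ) : ℤ) = ((∑ i, ((-ex n m) i).toNat : ℕ) : ℤ) := by
      rw [h]
    push_cast at h1
    unfold cusp
    rw [neg_eq_zero]
    have h2 : ∑ i, ex n m i = ∑ i, (((ex n m i).toNat : ℤ) - (((-ex n m) i).toNat : ℤ)) := by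
      refine Finset.sum_congr rfl fun i _ => ?_
      simp only [Pi.neg_apply]
      omega
    rw [h2, Finset.sum_sub_distrib]
    push_cast
    linarith
  have hPm : P.Monic := num_monic a _
  have hQm : Q.Monic := num_monic a _
  -- the two polynomials
  let ι : Om →+* P3 Om := MvPolynomial.C
  set d₁ : ℕ := max P.natDegree Q.natDegree with hd₁
  let E : (P3 Om)[X] := Polynomial.C (mp Om (-m) * MvPolynomial.C γ) * P.map ι -
    Polynomial.C (mp Om m) * Q.map ι
  let D : Fin 3 → Om[X] := fun l => num a (-fun i => n i l)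
  let N : Fin 3 → Om[X] := fun l => num a (fun i => n i l)
  let h₀ : Fin 3 → (P3 Om)[X] := fun l => Polynomial.C (MvPolynomial.X l) * (D l).map ι -
    Polynomial.C (MvPolynomial.C (c l)) * (N l).map ι
  set d₂ : ℕ := ∑ l, ((D l).natDegree + (N l).natDegree) with hd₂
  let H : Om → (P3 Om)[X] := fun lam => ∑ l : Fin 3, Polynomial.C (MvPolynomial.C (lam ^ (l : ℕ))) * h₀ l
  -- specialisations
  have hspE : ∀ (L : Type) [Field L] (ψ : Om →+* L) (τ : Fin 3 → L),
      E.map (MvPolynomial.eval₂Hom ψ τ) =
        Polynomial.C (e3 ψ τ (mp Om (-m)) * ψ γ) * P.map ψ -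
          Polynomial.C (e3 ψ τ (mp Om m)) * Q.map ψ := by
    intro L _ ψ τ
    have hcomp : (MvPolynomial.eval₂Hom ψ τ).comp ι = ψ := by
      ext x
      simp [ι]
    simp only [E, Polynomial.map_sub, Polynomial.map_mul, Polynomial.map_C, Polynomial.map_map,
      hcomp, map_mul]
    congr 2
    congr 1
    simp
  have hspH : ∀ (L : Type) [Field L] (ψ : Om →+* L) (τ : Fin 3 → L) (lam : Om),
      (H lam).map (MvPolynomial.eval₂Hom ψ τ) =
        ∑ l : Fin 3, Polynomial.C (ψ lam ^ (l : ℕ)) * (Polynomial.C (τ l) * (D l).map ψ -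
          Polynomial.C (ψ (c l)) * (N l).map ψ) := by
    intro L _ ψ τ lam
    have hcomp : (MvPolynomial.eval₂Hom ψ τ).comp ι = ψ := by
      ext x
      simp [ι]
    simp only [H, h₀, Polynomial.map_sum, Polynomial.map_sub, Polynomial.map_mul,
      Polynomial.map_C, Polynomial.map_map, hcomp]
    refine Finset.sum_congr rfl fun l _ => ?_
    simp
  have hdegE : ∀ (L : Type) [Field L] (ψ : Om →+* L) (τ : Fin 3 → L), (∀ l, τ l ≠ 0) →
      (E.map (MvPolynomial.eval₂Hom ψ τ)).natDegree = d₁ := by
    intro L _ ψ τ hτ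
    rw [hspE]
    have n1 : e3 ψ τ (mp Om (-m)) * ψ γ ≠ 0 :=
      mul_ne_zero (mp_ne_zero ψ τ hτ _) ((_root_.map_ne_zero ψ).mpr hγ0)
    have n2 : e3 ψ τ (mp Om m) ≠ 0 := mp_ne_zero ψ τ hτ _
    have e1 : (Polynomial.C (e3 ψ τ (mp Om (-m)) * ψ γ) * P.map ψ).natDegree = P.natDegree := by
      rw [natDegree_C_mul n1, hPm.natDegree_map]
    have e2 : (Polynomial.C (e3 ψ τ (mp Om m)) * Q.map ψ).natDegree = Q.natDegree := by
      rw [natDegree_C_mul n2, hQm.natDegree_map]
    rcases lt_or_gt_of_ne hdeg with h | h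
    · rw [natDegree_sub_eq_right_of_natDegree_lt (by rw [e1, e2]; exact h), e2, hd₁,
        max_eq_right h.le]
    · rw [natDegree_sub_eq_left_of_natDegree_lt (by rw [e1, e2]; exact h), e1, hd₁,
        max_eq_left h.le]
  have hdegH : ∀ (L : Type) [Field L] (ψ : Om →+* L) (τ : Fin 3 → L) (lam : Om),
      ((H lam).map (MvPolynomial.eval₂Hom ψ τ)).natDegree ≤ d₂ := by
    intro L _ ψ τ lam
    rw [hspH]
    refine natDegree_sum_le_of_forall_le _ _ fun l _ => ?_
    refine (natDegree_C_mul_le _ _).trans ((natDegree_sub_le _ _).trans (max_le ?_ ?_))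
    · refine (natDegree_C_mul_le _ _).trans (natDegree_map_le.trans ?_)
      refine le_trans (Nat.le_add_right _ _) (Finset.single_le_sum
        (f := fun l => (D l).natDegree + (N l).natDegree) (fun _ _ => Nat.zero_le _)
        (Finset.mem_univ l))
    · refine (natDegree_C_mul_le _ _).trans (natDegree_map_le.trans ?_)
      refine le_trans (Nat.le_add_left _ _) (Finset.single_le_sum
        (f := fun l => (D l).natDegree + (N l).natDegree) (fun _ _ => Nat.zero_le _)
        (Finset.mem_univ l))
  -- the resultant is in the ideal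
  have hres : ∀ lam : Om, resultant E (H lam) d₁ d₂ ∈ idl a n c := by
    intro lam y hy
    have hF : ∀ l, F a n c y l ≠ 0 := F_ne_zero a n c hc y hy
    have e0 : MvPolynomial.eval (F a n c y) (resultant E (H lam) d₁ d₂) =
        resultant (E.map (MvPolynomial.eval₂Hom (RingHom.id Om) (F a n c y)))
          ((H lam).map (MvPolynomial.eval₂Hom (RingHom.id Om) (F a n c y))) d₁ d₂ := by
      rw [resultant_map_map]
      rfl
    rw [e0]
    set E' := E.map (MvPolynomial.eval₂Hom (RingHom.id Om) (F a n c y)) with hE'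
    set H' := (H lam).map (MvPolynomial.eval₂Hom (RingHom.id Om) (F a n c y)) with hH'
    have hE'd : E'.natDegree = d₁ := hdegE Om (RingHom.id Om) _ hF
    rw [← hE'd, resultant_eq_prod_eval _ _ _ (hdegH Om (RingHom.id Om) _ lam)
      (IsAlgClosed.splits _)]
    have hyE : E'.eval y = 0 := by
      rw [hE', hspE]
      simp only [Polynomial.map_id, eval_sub, eval_mul, eval_C, RingHom.id_apply]
      rw [eval_mp' (RingHom.id Om) _ hF m, prod_F a n c y hy m,
        ← num_mul a (ex n m) y fun i _ => hy i]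
      ring
    have hyH : H'.eval y = 0 := by
      rw [hH', hspH, eval_finsetSum]
      refine Finset.sum_eq_zero fun l _ => ?_
      simp only [Polynomial.map_id, eval_sub, eval_mul, eval_C, RingHom.id_apply]
      have : F a n c y l * (D l).eval y - c l * (N l).eval y = 0 := by
        simp only [D, N]
        rw [← num_mul a (fun i => n i l) y fun i _ => hy i]
        unfold F
        ring
      rw [this, mul_zero]
    have hroot : y ∈ E'.roots := by
      rw [mem_roots]
      · exact hyE
      · intro h0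
        rw [h0, natDegree_zero] at hE'd
        rcases lt_or_gt_of_ne hdeg with h | h
        · rw [hd₁, max_eq_right h.le] at hE'd
          omega
        · rw [hd₁, max_eq_left h.le] at hE'd
          omega
    have : (E'.roots.map fun x => H'.eval x).prod = 0 := by
      rw [Multiset.prod_eq_zero_iff, Multiset.mem_map]
      exact ⟨y, hroot, hyH⟩
    show E'.leadingCoeff ^ d₂ * (E'.roots.map fun x => H'.eval x).prod = 0
    rw [this, mul_zero]
  -- the roots of the specialisation at `t`
  set E' := E.map (MvPolynomial.eval₂Hom φ t) with hE'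
  have hE'd : E'.natDegree = d₁ := hdegE K φ t ht0
  have hE'0 : E' ≠ 0 := by
    intro h0
    rw [h0, natDegree_zero] at hE'd
    rcases lt_or_gt_of_ne hdeg with h | h
    · rw [hd₁, max_eq_right h.le] at hE'd
      omega
    · rw [hd₁, max_eq_left h.le] at hE'd
      omega
  have hex : ∀ lam : Om, ∃ x ∈ E'.roots.toFinset,
      ((H lam).map (MvPolynomial.eval₂Hom φ t)).eval x = 0 := by
    intro lam
    have h1 := htI _ (hres lam)
    have e0 : e3 φ t (resultant E (H lam) d₁ d₂) =
        resultant E' ((H lam).map (MvPolynomial.eval₂Hom φ t)) d₁ d₂ := by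
      rw [hE', resultant_map_map]
      rfl
    rw [e0, ← hE'd, resultant_eq_prod_eval _ _ _ (hdegH K φ t lam) (IsAlgClosed.splits _)] at h1
    have h2 := (mul_eq_zero.mp h1).resolve_left
      (pow_ne_zero _ (leadingCoeff_ne_zero.mpr hE'0))
    rw [Multiset.prod_eq_zero_iff, Multiset.mem_map] at h2
    obtain ⟨x, hx, hx0⟩ := h2
    exact ⟨x, Multiset.mem_toFinset.mpr hx, hx0⟩
  choose x hx hxH using hex
  -- one root for infinitely many parameters
  obtain ⟨x₀, hx₀, hinfx⟩ : ∃ x₀ ∈ E'.roots.toFinset, {lam : Om | x lam = x₀}.Infinite := by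
    by_contra hcon
    push Not at hcon
    have : (Set.univ : Set Om).Finite := by
      refine (E'.roots.toFinset.finite_toSet.biUnion fun x₀ hx₀ =>
        hcon x₀ hx₀).subset ?_
      intro lam _
      exact Set.mem_biUnion (hx lam) rfl
    exact Set.infinite_univ this
  have hall : ∀ l, t l * ((D l).map φ).eval x₀ - φ (c l) * ((N l).map φ).eval x₀ = 0 := by
    set b : Fin 3 → K := fun l => t l * ((D l).map φ).eval x₀ - φ (c l) * ((N l).map φ).eval x₀
      with hb
    have hpoly : (∑ l : Fin 3, Polynomial.C (b l) * Polynomial.X ^ (l : ℕ) : K[X]) = 0 := by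
      apply eq_zero_of_infinite_isRoot
      refine Set.Infinite.mono ?_ (hinfx.image (f := φ) φ.injective.injOn)
      rintro _ ⟨lam, hlam, rfl⟩
      have h1 := hxH lam
      rw [Set.mem_ofPred_eq] at hlam
      rw [hspH, hlam, eval_finsetSum] at h1
      show (∑ l : Fin 3, Polynomial.C (b l) * Polynomial.X ^ (l : ℕ) : K[X]).eval (φ lam) = 0
      rw [eval_finsetSum, ← h1]
      refine Finset.sum_congr rfl fun l _ => ?_
      simp only [eval_mul, eval_C, eval_pow, eval_X, eval_sub, hb]
      ring
    intro l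
    have h2 := congrArg (fun p => Polynomial.coeff p (l : ℕ)) hpoly
    simp only [finsetSum_coeff, coeff_C_mul, coeff_X_pow, coeff_zero] at h2
    rw [Finset.sum_eq_single l] at h2
    · rw [if_pos rfl, mul_one] at h2
      exact h2
    · intro j _ hj
      rw [if_neg, mul_zero]
      intro h
      exact hj (Fin.ext h.symm)
    · intro h
      exact absurd (Finset.mem_univ l) h
  -- the images of the numerators
  have hnum : ∀ e : Fin s → ℤ, (num a e).map φ = num (fun i => φ (a i)) e := by
    intro e
    unfold num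
    rw [Polynomial.map_prod]
    simp
  have haφ : Function.Injective fun i => φ (a i) := fun i j h => ha (φ.injective h)
  have hxa : ∀ i, x₀ ≠ φ (a i) := by
    intro i hi
    obtain ⟨l, hl⟩ : ∃ l, n i l ≠ 0 := by
      by_contra h
      push Not at h
      exact hn i (funext h)
    have h1 := hall l
    simp only [D, N] at h1
    rw [hnum, hnum, hi] at h1
    rcases lt_or_gt_of_ne hl with h0 | h0
    · have e1 : (num (fun i => φ (a i)) (-fun i => n i l)).eval (φ (a i)) = 0 :=
        num_eq_zero (fun i => φ (a i)) (-fun i => n i l) i (by simpa using h0)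
      have e2 : (num (fun i => φ (a i)) (fun i => n i l)).eval (φ (a i)) ≠ 0 := by
        refine num_ne_zero (fun i => φ (a i)) _ _ fun j hj hij => ?_
        have := haφ hij
        subst this
        omega
      rw [e1, mul_zero, zero_sub, neg_eq_zero] at h1
      exact (mul_ne_zero ((_root_.map_ne_zero φ).mpr (hc l)) e2) h1
    · have e1 : (num (fun i => φ (a i)) (fun i => n i l)).eval (φ (a i)) = 0 :=
        num_eq_zero (fun i => φ (a i)) (fun i => n i l) i h0
      have e2 : (num (fun i => φ (a i)) (-fun i => n i l)).eval (φ (a i)) ≠ 0 := by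
        refine num_ne_zero (fun i => φ (a i)) _ _ fun j hj hij => ?_
        have := haφ hij
        subst this
        simp only [Pi.neg_apply] at hj
        omega
      rw [e1, mul_zero, sub_zero] at h1
      exact (mul_ne_zero (ht0 l) e2) h1
  refine ⟨x₀, hxa, fun l => ?_⟩
  have h1 := hall l
  simp only [D, N] at h1
  rw [hnum, hnum, ← num_mul (fun i => φ (a i)) (fun i => n i l) x₀ fun i _ => hxa i] at h1
  have e2 : (num (fun i => φ (a i)) (-fun i => n i l)).eval x₀ ≠ 0 :=
    num_ne_zero (fun i => φ (a i)) _ _ fun j _ => hxa j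
  unfold F
  apply mul_right_cancel₀ e2
  linear_combination h1

end Pool.Agent.Work.MP_7da6af_nt.Rat
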