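import Mathlib

/-! # Products of powers of linear polynomials near the cusps -/

set_option autoImplicit false

namespace Pool.Agent.Work.MP_7da6af_nt.Rat

/-- the product of the `(y - a i) ^ e i` -/
noncomputable def G {K : Type} [Field K] {s : ℕ} (a : Fin s → K) (e : Fin s → ℤ) (y : K) : K :=
  ∏ i, (y - a i) ^ e i

/-- the exponents at the cusps; `none` is the point at infinity -/
def cusp {s : ℕ} (e : Fin s → ℤ) : Option (Fin s) → ℤ
  | some i => e i
  | none => - ∑ i, e i

/-- the behaviour of `log |y - a i|` at a cusp -/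
def chi {s : ℕ} : Option (Fin s) → Fin s → ℝ
  | some j => fun i => if i = j then 1 else 0
  | none => fun _ => -1

theorem sum_chi {s : ℕ} (e : Fin s → ℤ) (j : Option (Fin s)) :
    ∑ i, (e i : ℝ) * chi j i = (cusp e j : ℝ) := by
  cases j with
  | none => simp [chi, cusp]
  | some j => simp [chi, cusp]

variable {s : ℕ} (a : Fin s → ℂ)

theorem log_G (e : Fin s → ℤ) (z : ℂ) (hz : ∀ i, e i ≠ 0 → z ≠ a i) :
    Real.log ‖G a e z‖ = ∑ i, (e i : ℝ) * Real.log ‖z - a i‖ := by
  unfold G
  rw [norm_prod, Real.log_prod]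
  · refine Finset.sum_congr rfl fun i _ => ?_
    rw [norm_zpow, Real.log_zpow]
  · intro i _
    rw [norm_zpow]
    by_cases h : e i = 0
    · rw [h, zpow_zero]
      exact one_ne_zero
    · exact zpow_ne_zero _ (norm_ne_zero_iff.mpr (sub_ne_zero.mpr (hz i h)))

theorem norm_G_pos (e : Fin s → ℤ) (z : ℂ) (hz : ∀ i, e i ≠ 0 → z ≠ a i) : 0 < ‖G a e z‖ := by
  unfold G
  rw [norm_prod]
  refine Finset.prod_pos fun i _ => ?_
  rw [norm_zpow]
  by_cases h : e i = 0
  · rw [h, zpow_zero]
    exact one_pos
  · exact zpow_pos (norm_pos_iff.mpr (sub_ne_zero.mpr (hz i h))) _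

/-- comparison of the logarithm with its behaviour at a cusp -/
theorem log_G_cusp (e : Fin s → ℤ) (z : ℂ) (hz : ∀ i, e i ≠ 0 → z ≠ a i) (j : Option (Fin s))
    (μ C : ℝ) (h : ∀ i, z ≠ a i → |Real.log ‖z - a i‖ - μ * chi j i| ≤ C) :
    |Real.log ‖G a e z‖ - (cusp e j : ℝ) * μ| ≤ (∑ i, |(e i : ℝ)|) * C := by
  rw [log_G a e z hz, ← sum_chi, Finset.sum_mul, ← Finset.sum_sub_distrib, Finset.sum_mul]
  refine (Finset.abs_sum_le_sum_abs _ _).trans (Finset.sum_le_sum fun i _ => ?_)
  have e1 : (e i : ℝ) * Real.log ‖z - a i‖ - (e i : ℝ) * chi j i * μ =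
      (e i : ℝ) * (Real.log ‖z - a i‖ - μ * chi j i) := by ring
  rw [e1, abs_mul]
  by_cases h0 : e i = 0
  · rw [h0]
    simp
  · exact mul_le_mul_of_nonneg_left (h i (hz i h0)) (abs_nonneg _)

theorem exists_sep (ha : Function.Injective a) :
    ∃ δ : ℝ, 0 < δ ∧ ∀ i j, i ≠ j → δ ≤ ‖a i - a j‖ := by
  classical
  have h : ∀ t : Finset (Fin s × Fin s), ∃ δ : ℝ, 0 < δ ∧ ∀ p ∈ t, p.1 ≠ p.2 →
      δ ≤ ‖a p.1 - a p.2‖ := by
    intro t
    induction t using Finset.induction_on with
    | empty => exact ⟨1, one_pos, fun p hp => absurd hp (Finset.notMem_empty p)⟩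
    | insert p t _ ih =>
      obtain ⟨δ, hδ, h⟩ := ih
      by_cases hp : p.1 = p.2
      · refine ⟨δ, hδ, fun q hq hne => ?_⟩
        rcases Finset.mem_insert.mp hq with rfl | hq
        · exact absurd hp hne
        · exact h q hq hne
      · have h1 : 0 < ‖a p.1 - a p.2‖ := norm_pos_iff.mpr (sub_ne_zero.mpr fun h2 => hp (ha h2))
        refine ⟨min δ ‖a p.1 - a p.2‖, lt_min hδ h1, fun q hq hne => ?_⟩
        rcases Finset.mem_insert.mp hq with rfl | hq
        · exact min_le_right _ _
        · exact (min_le_left _ _).trans (h q hq hne)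
  obtain ⟨δ, hδ, h⟩ := h Finset.univ
  exact ⟨δ, hδ, fun i j hij => h (i, j) (Finset.mem_univ _) hij⟩

theorem abs_log_le {x A B : ℝ} (hA : 0 < A) (h1 : A ≤ x) (h2 : x ≤ B) :
    |Real.log x| ≤ |Real.log A| + |Real.log B| := by
  have hx : 0 < x := hA.trans_le h1
  have l1 := Real.log_le_log hA h1
  have l2 := Real.log_le_log hx h2
  rw [abs_le]
  constructor
  · have := neg_abs_le (Real.log A)
    have := abs_nonneg (Real.log B)
    linarith
  · have := le_abs_self (Real.log B)
    have := abs_nonneg (Real.log A)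
    linarith

/-- a point far away -/
theorem log_far {z b : ℂ} {R : ℝ} (hR : 0 < R) (hb : 2 * ‖b‖ ≤ R) (hz : R ≤ ‖z‖) :
    |Real.log ‖z - b‖ - Real.log ‖z‖| ≤ Real.log 2 := by
  have hz0 : 0 < ‖z‖ := hR.trans_le hz
  have h1 : ‖z‖ / 2 ≤ ‖z - b‖ := by
    have := norm_sub_norm_le z b
    linarith
  have h2 : ‖z - b‖ ≤ 2 * ‖z‖ := by
    have := norm_sub_le z b
    linarith
  have h3 : 0 < ‖z - b‖ := by linarith
  have l1 := Real.log_le_log (by linarith : 0 < ‖z‖ / 2) h1
  have l2 := Real.log_le_log h3 h2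
  rw [Real.log_div hz0.ne' two_ne_zero] at l1
  rw [Real.log_mul two_ne_zero hz0.ne'] at l2
  rw [abs_le]
  constructor <;> linarith

/-- every point is near a cusp or in a compact set -/
theorem near_cusp (ha : Function.Injective a) : ∃ C : ℝ, 0 ≤ C ∧ ∀ z : ℂ,
    ∃ (j : Option (Fin s)) (μ : ℝ), μ ≤ C ∧
      ∀ i, z ≠ a i → |Real.log ‖z - a i‖ - μ * chi j i| ≤ C := by
  classical
  obtain ⟨δ, hδ, hsep⟩ := exists_sep a ha
  set R : ℝ := 2 * (∑ i, ‖a i‖ + 1) with hR
  have hS : 0 ≤ ∑ i, ‖a i‖ := Finset.sum_nonneg fun i _ => norm_nonneg _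
  have hRpos : 0 < R := by rw [hR]; linarith
  have hai : ∀ i, 2 * ‖a i‖ ≤ R := by
    intro i
    have := Finset.single_le_sum (f := fun i => ‖a i‖) (fun i _ => norm_nonneg _)
      (Finset.mem_univ i)
    rw [hR]
    linarith
  refine ⟨|Real.log 2| + |Real.log (δ / 2)| + |Real.log (2 * R)|, by positivity, fun z => ?_⟩
  set C := |Real.log 2| + |Real.log (δ / 2)| + |Real.log (2 * R)| with hC
  have hC0 : 0 ≤ C := by rw [hC]; positivity
  rcases le_or_gt R ‖z‖ with hz | hz
  · refine ⟨none, - Real.log ‖z‖, ?_, fun i _ => ?_⟩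
    · have : 0 ≤ Real.log ‖z‖ := Real.log_nonneg (by rw [hR] at hz; linarith)
      linarith
    · have h1 := log_far hRpos (hai i) hz
      have e1 : - Real.log ‖z‖ * chi (none : Option (Fin s)) i = Real.log ‖z‖ := by
        simp [chi]
      rw [e1]
      refine h1.trans ?_
      rw [hC]
      have := le_abs_self (Real.log 2)
      have := abs_nonneg (Real.log (δ / 2))
      have := abs_nonneg (Real.log (2 * R))
      linarith
  · have hup : ∀ i, ‖z - a i‖ ≤ 2 * R := by
      intro i
      have := norm_sub_le z (a i)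
      have := hai i
      linarith
    by_cases hs : Nonempty (Fin s)
    · obtain ⟨j, hj⟩ := Finite.exists_min fun i => ‖z - a i‖
      have hlow : ∀ i, i ≠ j → δ / 2 ≤ ‖z - a i‖ := by
        intro i hij
        have h1 := hsep i j hij
        have h2 : ‖a i - a j‖ ≤ ‖z - a i‖ + ‖z - a j‖ := by
          have : a i - a j = (z - a j) - (z - a i) := by ring
          rw [this]
          have := norm_sub_le (z - a j) (z - a i)
          linarith
        have h3 := hj i
        linarith
      refine ⟨some j, if z = a j then 0 else Real.log ‖z - a j‖, ?_, fun i hi => ?_⟩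
      · split_ifs with h
        · exact hC0
        · have h1 : 0 < ‖z - a j‖ := norm_pos_iff.mpr (sub_ne_zero.mpr h)
          have h2 := Real.log_le_log h1 (hup j)
          have := le_abs_self (Real.log (2 * R))
          have := abs_nonneg (Real.log (δ / 2))
          have := abs_nonneg (Real.log 2)
          rw [hC]
          linarith
      · by_cases hij : i = j
        · subst hij
          rw [if_neg hi]
          have e1 : chi (some i) i = 1 := by simp [chi]
          rw [e1, mul_one, sub_self, abs_zero]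
          exact hC0
        · have e1 : chi (some j) i = 0 := by simp [chi, hij]
          rw [e1, mul_zero, sub_zero]
          have h1 := abs_log_le (by linarith : 0 < δ / 2) (hlow i hij) (hup i)
          rw [hC]
          have := abs_nonneg (Real.log 2)
          linarith
    · refine ⟨none, 0, hC0, fun i _ => absurd ⟨i⟩ hs⟩

/-- there are points near every cusp -/
theorem approach (ha : Function.Injective a) : ∃ C : ℝ, 0 ≤ C ∧ ∀ (j : Option (Fin s)) (M : ℝ),
    {y : ℂ | (∀ i, y ≠ a i) ∧ ∃ Λ : ℝ, Λ ≤ - M ∧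
      ∀ i, |Real.log ‖y - a i‖ - Λ * chi j i| ≤ C}.Infinite := by
  classical
  obtain ⟨δ, hδ, hsep⟩ := exists_sep a ha
  set R : ℝ := 2 * (∑ i, ‖a i‖ + 1) with hR
  have hS : 0 ≤ ∑ i, ‖a i‖ := Finset.sum_nonneg fun i _ => norm_nonneg _
  have hRpos : 0 < R := by rw [hR]; linarith
  have hai : ∀ i, 2 * ‖a i‖ ≤ R := by
    intro i
    have := Finset.single_le_sum (f := fun i => ‖a i‖) (fun i _ => norm_nonneg _)
      (Finset.mem_univ i)
    rw [hR]
    linarith
  refine ⟨|Real.log 2| + |Real.log (δ / 2)| + |Real.log (2 * R)|, by positivity, fun j M => ?_⟩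
  set C := |Real.log 2| + |Real.log (δ / 2)| + |Real.log (2 * R)| with hC
  have hC0 : 0 ≤ C := by rw [hC]; positivity
  cases j with
  | none =>
    have hinf : (Set.Ici (max R (Real.exp M))).Infinite := Set.Ici_infinite _
    refine (hinf.image (f := fun r : ℝ => (r : ℂ)) (Complex.ofReal_injective.injOn)).mono ?_
    rintro _ ⟨r, hr, rfl⟩
    rw [Set.mem_Ici, max_le_iff] at hr
    have hr0 : 0 < r := hRpos.trans_le hr.1
    have hn : ‖(r : ℂ)‖ = r := by rw [Complex.norm_real, Real.norm_of_nonneg hr0.le]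
    refine ⟨fun i hi => ?_, - Real.log r, ?_, fun i => ?_⟩
    · have h1 := hai i
      have h2 : ‖a i‖ = r := by rw [← hi, hn]
      rw [h2] at h1
      linarith [hr.1]
    · have := Real.log_le_log (Real.exp_pos M) hr.2
      rw [Real.log_exp] at this
      linarith
    · have h1 := log_far hRpos (hai i) (by rw [hn]; exact hr.1 : R ≤ ‖(r : ℂ)‖)
      have e1 : - Real.log r * chi (none : Option (Fin s)) i = Real.log ‖(r : ℂ)‖ := by
        rw [hn]
        simp [chi]
      rw [e1]
      refine h1.trans ?_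
      rw [hC]
      have := le_abs_self (Real.log 2)
      have := abs_nonneg (Real.log (δ / 2))
      have := abs_nonneg (Real.log (2 * R))
      linarith
  | some j =>
    set ε₀ : ℝ := min (min (δ / 2) R) (Real.exp (-M)) with hε₀
    have hε₀pos : 0 < ε₀ := by
      rw [hε₀]
      exact lt_min (lt_min (by linarith) hRpos) (Real.exp_pos _)
    have hinf : (Set.Ioo 0 ε₀).Infinite := Set.Ioo_infinite hε₀pos
    refine (hinf.image (f := fun ε : ℝ => a j + (ε : ℂ)) ?_).mono ?_
    · intro x _ y _ hxy
      exact Complex.ofReal_injective (add_left_cancel hxy)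
    · rintro _ ⟨ε, ⟨h0, h1⟩, rfl⟩
      have hε1 : ε < δ / 2 := h1.trans_le ((min_le_left _ _).trans (min_le_left _ _))
      have hε2 : ε < R := h1.trans_le ((min_le_left _ _).trans (min_le_right _ _))
      have hε3 : ε < Real.exp (-M) := h1.trans_le (min_le_right _ _)
      have hn : ‖(ε : ℂ)‖ = ε := by rw [Complex.norm_real, Real.norm_of_nonneg h0.le]
      have hlow : ∀ i, i ≠ j → δ / 2 ≤ ‖a j + (ε : ℂ) - a i‖ := by
        intro i hij
        have h2 := hsep j i (Ne.symm hij)
        have e1 : a j - a i = (a j + (ε : ℂ) - a i) - (ε : ℂ) := by ring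
        rw [e1] at h2
        have h3 := norm_sub_le (a j + (ε : ℂ) - a i) (ε : ℂ)
        rw [hn] at h3
        linarith
      have hup : ∀ i, ‖a j + (ε : ℂ) - a i‖ ≤ 2 * R := by
        intro i
        have h2 := norm_sub_le (a j + (ε : ℂ)) (a i)
        have h3 := norm_add_le (a j) (ε : ℂ)
        rw [hn] at h3
        have := hai i
        have := hai j
        linarith
      refine ⟨fun i hi => ?_, Real.log ε, ?_, fun i => ?_⟩
      · by_cases hij : i = j
        · subst hij
          have : (ε : ℂ) = 0 := by linear_combination hi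
          rw [Complex.ofReal_eq_zero] at this
          exact h0.ne' this
        · have := hlow i hij
          simp only at hi
          rw [hi, sub_self, norm_zero] at this
          linarith
      · have := Real.log_le_log h0 hε3.le
        rw [Real.log_exp] at this
        exact this
      · by_cases hij : i = j
        · subst hij
          have e1 : chi (some i) i = 1 := by simp [chi]
          have e2 : a i + (ε : ℂ) - a i = (ε : ℂ) := by ring
          simp only [e1, e2, hn, mul_one, sub_self, abs_zero]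
          exact hC0
        · have e1 : chi (some j) i = 0 := by simp [chi, hij]
          simp only [e1, mul_zero, sub_zero]
          have h2 := abs_log_le (by linarith : 0 < δ / 2) (hlow i hij) (hup i)
          rw [hC]
          have := abs_nonneg (Real.log 2)
          linarith

end Pool.Agent.Work.MP_7da6af_nt.Rat
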