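import Pool.Agent.Work.MP_7da6af_nt.Rat.Curve

/-! # The amoeba condition for the ideal of a rational curve -/

set_option autoImplicit false

namespace Pool.Agent.Work.MP_7da6af_nt.Rat

open Polynomial
open Pool.Agent.Work.MP_7da6af_nt.Crv (P3 e3 On mp IsCurve StarP L3)

variable {s : ℕ} (a : Fin s → Om) (n : Fin s → Fin 3 → ℤ) (c : Fin 3 → Om)

/-- the amoeba condition -/
theorem starP_idl (ha : Function.Injective a) (hc : ∀ l, c l ≠ 0) (hn : ∀ i, n i ≠ 0)
    (hinf : cv n none ≠ 0) (hasym : Asym n) (σ : Om →+* ℂ) : StarP (idl a n c) σ := by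
  intro d hd S
  have hfin := star_rat (fun i => σ (a i)) n (fun l => σ (c l)) (σ.injective.comp ha)
    (fun l => (map_ne_zero σ).mpr (hc l)) hasym d hd S
  refine (hfin.image fun y => F (fun i => σ (a i)) n (fun l => σ (c l)) y).subset ?_
  rintro t ⟨ht, hS, r, hr⟩
  obtain ⟨y, hy, hty⟩ := surj a n c hc hn ha hinf σ t ht
  have hty' : F (fun i => σ (a i)) n (fun l => σ (c l)) y = t := funext fun l => (hty l).symm
  refine ⟨y, ⟨hy, fun l => ?_, r, fun l => ?_⟩, hty'⟩
  · rw [← hty l]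
    exact hS l
  · rw [← hty l]
    exact congrFun hr l

/-- the points of the torus on the curve -/
theorem mem_curve_iff (ha : Function.Injective a) (hc : ∀ l, c l ≠ 0) (hn : ∀ i, n i ≠ 0)
    (hinf : cv n none ≠ 0) (t : Fin 3 → Om) :
    On (idl a n c) (RingHom.id Om) t ↔ ∃ y : Om, (∀ i, y ≠ a i) ∧ ∀ l, t l = F a n c y l := by
  constructor
  · intro ht
    obtain ⟨y, hy, hty⟩ := surj a n c hc hn ha hinf (RingHom.id Om) t ht
    exact ⟨y, hy, hty⟩
  · rintro ⟨y, hy, hty⟩
    have : t = F a n c y := funext hty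
    subst this
    exact ⟨F_ne_zero a n c hc y hy, fun f hf => hf y hy⟩

end Pool.Agent.Work.MP_7da6af_nt.Rat
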