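import Pool.Agent.Work.MP_7da6af_nt.Rat.Opp
import Pool.Agent.Work.MP_7da6af_nt.Gen.StarOf

/-! # A relation between the squares of the absolute values of the coordinates -/

set_option autoImplicit false

namespace Pool.Agent.Work.MP_7da6af_nt.Rat

open Polynomial Filter Topology

section

variable {K : Type} [Field K] {s : ℕ}

/-- the exponents of a monomial in the coordinates -/
def ex (n : Fin s → Fin 3 → ℤ) (κ : Fin 3 → ℤ) (i : Fin s) : ℤ := ∑ l, κ l * n i l

/-- the point with parameter `y` -/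
noncomputable def F (a : Fin s → K) (n : Fin s → Fin 3 → ℤ) (c : Fin 3 → K) (y : K)
    (l : Fin 3) : K := c l * G a (fun i => n i l) y

theorem G_ne_zero (a : Fin s → K) (e : Fin s → ℤ) (y : K) (hy : ∀ i, y ≠ a i) :
    G a e y ≠ 0 :=
  Finset.prod_ne_zero_iff.mpr fun i _ => zpow_ne_zero _ (sub_ne_zero.mpr (hy i))

theorem F_ne_zero (a : Fin s → K) (n : Fin s → Fin 3 → ℤ) (c : Fin 3 → K) (hc : ∀ l, c l ≠ 0)
    (y : K) (hy : ∀ i, y ≠ a i) (l : Fin 3) : F a n c y l ≠ 0 :=
  mul_ne_zero (hc l) (G_ne_zero a _ y hy)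

theorem prod_F (a : Fin s → K) (n : Fin s → Fin 3 → ℤ) (c : Fin 3 → K) (y : K)
    (hy : ∀ i, y ≠ a i) (κ : Fin 3 → ℤ) :
    ∏ l, F a n c y l ^ κ l = (∏ l, c l ^ κ l) * G a (ex n κ) y := by
  unfold F G ex
  simp only [mul_zpow]
  rw [Finset.prod_mul_distrib]
  congr 1
  simp only [← Finset.prod_zpow]
  rw [Finset.prod_comm]
  refine Finset.prod_congr rfl fun i _ => ?_
  have h0 : y - a i ≠ 0 := sub_ne_zero.mpr (hy i)
  simp only [Fin.prod_univ_three, Fin.sum_univ_three, zpow_add₀ h0, ← zpow_mul, mul_comm]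

end

variable {s : ℕ} (a : Fin s → ℂ) (n : Fin s → Fin 3 → ℤ) (c : Fin 3 → ℂ)

/-- `W` vanishes at the products of a point of the curve and the conjugate of a point -/
def Van (W : MvPolynomial (Fin 3) ℂ) : Prop := ∀ y w : ℂ, (∀ i, y ≠ a i) → (∀ i, w ≠ a i) →
  MvPolynomial.eval (fun l => F a n c y l * starRingEnd ℂ (F a n c w l)) W = 0

theorem exists_van : ∃ W : MvPolynomial (Fin 3) ℂ, W ≠ 0 ∧ Van a n c W := by
  classical
  obtain ⟨N, hN⟩ : ∃ N : ℕ, ∀ i l, (n i l).natAbs ≤ N := by
    refine ⟨∑ i, ∑ l, (n i l).natAbs, fun i l => ?_⟩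
    refine le_trans ?_ (Finset.single_le_sum (f := fun i => ∑ l, (n i l).natAbs)
      (fun i _ => Nat.zero_le _) (Finset.mem_univ i))
    exact Finset.single_le_sum (f := fun l => (n i l).natAbs) (fun l _ => Nat.zero_le _)
      (Finset.mem_univ l)
  set A : ℕ := 6 * s * N + 1 with hA
  set D : ℕ := A ^ 2 with hD
  set M : ℕ := 6 * s * N * D + 1 with hM
  -- the polynomials
  let p : (Fin 3 → Fin (D + 1)) → ℂ[X] := fun m =>
    C (∏ l, c l ^ (m l : ℕ)) * ∏ i, (X - C (a i)) ^ (3 * N * D + ∑ l, (m l : ℤ) * n i l).toNat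
  have hpos : ∀ (m : Fin 3 → Fin (D + 1)) (i : Fin s),
      0 ≤ (3 * N * D : ℤ) + ∑ l, (m l : ℤ) * n i l ∧
      (3 * N * D : ℤ) + ∑ l, (m l : ℤ) * n i l ≤ 6 * N * D := by
    intro m i
    have h1 : |∑ l, ((m l : ℕ) : ℤ) * n i l| ≤ ∑ l : Fin 3, ((N * D : ℕ) : ℤ) := by
      refine (Finset.abs_sum_le_sum_abs _ _).trans (Finset.sum_le_sum fun l _ => ?_)
      rw [abs_mul]
      have h2 : |((m l : ℕ) : ℤ)| ≤ D := by
        rw [abs_of_nonneg (by positivity)]
        have := (m l).isLt
        omega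
      have h3 : |n i l| ≤ N := by
        rw [Int.abs_eq_natAbs]
        exact_mod_cast hN i l
      calc |((m l : ℕ) : ℤ)| * |n i l| ≤ D * N :=
            mul_le_mul h2 h3 (abs_nonneg _) (by positivity)
        _ = ((N * D : ℕ) : ℤ) := by push_cast; ring
    rw [Finset.sum_const, Finset.card_univ, Fintype.card_fin] at h1
    have h4 := abs_le.mp h1
    push_cast at h4
    constructor
    · have := h4.1
      simp only [nsmul_eq_mul] at this
      push_cast at this
      linarith
    · have := h4.2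
      simp only [nsmul_eq_mul] at this
      push_cast at this
      linarith
  have hdeg : ∀ m, (p m).natDegree < M := by
    intro m
    refine lt_of_le_of_lt (natDegree_C_mul_le _ _) ?_
    refine lt_of_le_of_lt (natDegree_prod_le _ _) ?_
    have h1 : ∀ i ∈ Finset.univ, ((X - C (a i)) ^
        (3 * N * D + ∑ l, (m l : ℤ) * n i l : ℤ).toNat).natDegree ≤ 6 * N * D := by
      intro i _
      rw [natDegree_pow, natDegree_X_sub_C, mul_one]
      have := (hpos m i).2
      have h5 : ((6 * N * D : ℕ) : ℤ) = 6 * N * D := by push_cast; ring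
      omega
    have h2 := Finset.sum_le_sum h1
    rw [Finset.sum_const, Finset.card_univ, Fintype.card_fin, smul_eq_mul] at h2
    calc _ ≤ s * (6 * N * D) := h2
      _ < M := by rw [hM]; have : s * (6 * N * D) = 6 * s * N * D := by ring
                  omega
  -- the linear relation
  let v : (Fin 3 → Fin (D + 1)) → (Fin M × Fin M → ℂ) := fun m ij =>
    (p m).coeff ij.1 * starRingEnd ℂ ((p m).coeff ij.2)
  have hnot : ¬ LinearIndependent ℂ v := by
    intro h
    have h1 := h.fintype_card_le_finrank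
    rw [Module.finrank_fintype_fun_eq_card, Fintype.card_prod, Fintype.card_fin,
      Fintype.card_fun, Fintype.card_fin, Fintype.card_fin] at h1
    have h2 : M ≤ A * (D + 1) := by
      rw [hM, hA]
      nlinarith
    have h3 : M * M ≤ (A * (D + 1)) * (A * (D + 1)) := Nat.mul_le_mul h2 h2
    have h4 : (A * (D + 1)) * (A * (D + 1)) = D * (D + 1) ^ 2 := by
      rw [hD]
      ring
    have h5 : D * (D + 1) ^ 2 < (D + 1) ^ 3 := by
      have : (D + 1) ^ 3 = D * (D + 1) ^ 2 + (D + 1) ^ 2 := by ring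
      rw [this]
      have : 0 < (D + 1) ^ 2 := by positivity
      omega
    omega
  rw [Fintype.not_linearIndependent_iff] at hnot
  obtain ⟨g, hg, m₀, hm₀⟩ := hnot
  let em : (Fin 3 → Fin (D + 1)) → (Fin 3 →₀ ℕ) := fun m =>
    Finsupp.equivFunOnFinite.symm fun l => (m l : ℕ)
  have hem : Function.Injective em := by
    intro m m' h
    funext l
    have := DFunLike.congr_fun h l
    exact Fin.ext this
  refine ⟨∑ m, MvPolynomial.monomial (em m) (g m), ?_, ?_⟩
  · intro h0
    have h1 := congrArg (MvPolynomial.coeff (em m₀)) h0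
    rw [MvPolynomial.coeff_sum, MvPolynomial.coeff_zero, Finset.sum_eq_single m₀] at h1
    · rw [MvPolynomial.coeff_monomial, if_pos rfl] at h1
      exact hm₀ h1
    · intro m _ hm
      rw [MvPolynomial.coeff_monomial, if_neg fun h => hm (hem h)]
    · intro h
      exact absurd (Finset.mem_univ _) h
  · intro y w hy hw
    set Q : ℂ → ℂ := fun y => ∏ i, (y - a i) ^ (3 * N * D) with hQ
    have hQ0 : ∀ y, (∀ i, y ≠ a i) → Q y ≠ 0 := fun y hy =>
      Finset.prod_ne_zero_iff.mpr fun i _ => pow_ne_zero _ (sub_ne_zero.mpr (hy i))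
    have hFp : ∀ (m : Fin 3 → Fin (D + 1)) (y : ℂ), (∀ i, y ≠ a i) →
        (∏ l, F a n c y l ^ (m l : ℕ)) * Q y = (p m).eval y := by
      intro m y hy
      have h1 := prod_F a n c y hy fun l => ((m l : ℕ) : ℤ)
      simp only [zpow_natCast] at h1
      rw [h1]
      simp only [p, hQ, eval_mul, eval_C, eval_prod, eval_pow, eval_sub, eval_X]
      rw [mul_assoc]
      congr 1
      unfold G
      rw [← Finset.prod_mul_distrib]
      refine Finset.prod_congr rfl fun i _ => ?_
      have h0 : y - a i ≠ 0 := sub_ne_zero.mpr (hy i)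
      rw [← zpow_natCast, ← zpow_natCast, ← zpow_add₀ h0, Int.toNat_of_nonneg (hpos m i).1]
      congr 1
      unfold ex
      push_cast
      ring
    have hsum : ∀ m, (p m).eval y * starRingEnd ℂ ((p m).eval w) =
        ∑ ij : Fin M × Fin M, v m ij * (y ^ (ij.1 : ℕ) * starRingEnd ℂ w ^ (ij.2 : ℕ)) := by
      intro m
      rw [eval_eq_sum_range' (hdeg m), eval_eq_sum_range' (hdeg m), map_sum,
        Finset.sum_mul_sum, Fintype.sum_prod_type]
      rw [Finset.sum_range]
      refine Finset.sum_congr rfl fun i _ => ?_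
      rw [Finset.sum_range]
      refine Finset.sum_congr rfl fun j _ => ?_
      simp only [v, map_mul, map_pow]
      ring
    have hzero : ∑ m, g m * ((p m).eval y * starRingEnd ℂ ((p m).eval w)) = 0 := by
      simp only [hsum, Finset.mul_sum]
      rw [Finset.sum_comm]
      refine Finset.sum_eq_zero fun ij _ => ?_
      have h1 := congrFun hg ij
      simp only [Finset.sum_apply, Pi.smul_apply, smul_eq_mul, Pi.zero_apply] at h1
      calc _ = (∑ m, g m * v m ij) * (y ^ (ij.1 : ℕ) * starRingEnd ℂ w ^ (ij.2 : ℕ)) := by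
            rw [Finset.sum_mul]
            refine Finset.sum_congr rfl fun m _ => ?_
            ring
        _ = 0 := by rw [h1, zero_mul]
    rw [map_sum]
    have hterm : ∀ m, MvPolynomial.eval (fun l => F a n c y l * starRingEnd ℂ (F a n c w l))
        (MvPolynomial.monomial (em m) (g m)) * (Q y * starRingEnd ℂ (Q w)) =
        g m * ((p m).eval y * starRingEnd ℂ ((p m).eval w)) := by
      intro m
      rw [MvPolynomial.eval_monomial, ← hFp m y hy, ← hFp m w hw]
      have h1 : (em m).prod (fun l k => (F a n c y l * starRingEnd ℂ (F a n c w l)) ^ k) =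
          (∏ l, F a n c y l ^ (m l : ℕ)) *
            starRingEnd ℂ (∏ l, F a n c w l ^ (m l : ℕ)) := by
        rw [Finsupp.prod_fintype _ _ (fun _ => pow_zero _), map_prod,
          ← Finset.prod_mul_distrib]
        refine Finset.prod_congr rfl fun l _ => ?_
        rw [mul_pow, map_pow]
        rfl
      rw [h1, map_mul (starRingEnd ℂ) (∏ l, F a n c w l ^ (m l : ℕ)) (Q w)]
      ring
    have h2 : (∑ m, MvPolynomial.eval (fun l => F a n c y l * starRingEnd ℂ (F a n c w l))
        (MvPolynomial.monomial (em m) (g m))) * (Q y * starRingEnd ℂ (Q w)) = 0 := by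
      rw [Finset.sum_mul]
      simp only [hterm]
      exact hzero
    rcases mul_eq_zero.mp h2 with h3 | h3
    · exact h3
    · exfalso
      rcases mul_eq_zero.mp h3 with h4 | h4
      · exact hQ0 y hy h4
      · exact hQ0 w hw ((map_eq_zero _).mp h4)

/-- the binomial of an exponent vector -/
noncomputable def bin (κ : Fin 3 → ℤ) : MvPolynomial (Fin 3) ℂ :=
  MvPolynomial.monomial (Finsupp.equivFunOnFinite.symm fun l => (κ l).toNat) 1 -
    MvPolynomial.monomial (Finsupp.equivFunOnFinite.symm fun l => (- κ l).toNat) 1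

theorem bin_dvd_nat (κ : Fin 3 → ℤ) (m m' : Fin 3 →₀ ℕ) (k : ℕ)
    (h : ∀ l, (m l : ℤ) - m' l = k * κ l) :
    bin κ ∣ MvPolynomial.monomial m 1 - MvPolynomial.monomial m' 1 := by
  set κp : Fin 3 →₀ ℕ := Finsupp.equivFunOnFinite.symm fun l => (κ l).toNat with hκp
  set κm : Fin 3 →₀ ℕ := Finsupp.equivFunOnFinite.symm fun l => (- κ l).toNat with hκm
  have ep : ∀ l, κp l = (κ l).toNat := fun l => rfl
  have eq : ∀ l, κm l = (- κ l).toNat := fun l => rfl
  have hcase : ∀ l, ((κp l : ℕ) : ℤ) - (κm l : ℕ) = κ l := by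
    intro l
    rw [ep, eq]
    omega
  have hle : ∀ l, k * κm l ≤ m' l := by
    intro l
    rcases le_or_gt 0 (κ l) with h0 | h0
    · have : κm l = 0 := by rw [eq]; omega
      rw [this, mul_zero]
      exact Nat.zero_le _
    · have h1 := h l
      have h2 : ((κm l : ℕ) : ℤ) = - κ l := by rw [eq]; omega
      have h3 : ((k * κm l : ℕ) : ℤ) ≤ (m' l : ℕ) := by
        push_cast
        rw [h2]
        have : (0 : ℤ) ≤ m l := by positivity
        linarith
      exact_mod_cast h3
  have e1 : m' = (m' - k • κm) + k • κm := by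
    ext l
    have := hle l
    simp only [Finsupp.coe_add, Pi.add_apply, Finsupp.coe_tsub, Pi.sub_apply, Finsupp.coe_smul,
      Pi.smul_apply, smul_eq_mul]
    omega
  have e2 : m = (m' - k • κm) + k • κp := by
    ext l
    have h1 := hle l
    have h2 := h l
    have h3 := hcase l
    simp only [Finsupp.coe_add, Pi.add_apply, Finsupp.coe_tsub, Pi.sub_apply, Finsupp.coe_smul,
      Pi.smul_apply, smul_eq_mul]
    have h4 : ((m l : ℕ) : ℤ) = ((m' l - k * κm l + k * κp l : ℕ) : ℤ) := by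
      rw [Nat.cast_add, Nat.cast_sub h1]
      push_cast
      rw [← h3] at h2
      linarith
    exact_mod_cast h4
  have e3 : MvPolynomial.monomial m (1 : ℂ) - MvPolynomial.monomial m' 1 =
      MvPolynomial.monomial (m' - k • κm) 1 *
        (MvPolynomial.monomial κp 1 ^ k - MvPolynomial.monomial κm 1 ^ k) := by
    conv_lhs => rw [e1, e2]
    rw [MvPolynomial.monomial_pow, MvPolynomial.monomial_pow, one_pow, mul_sub,
      MvPolynomial.monomial_mul, MvPolynomial.monomial_mul, one_mul, ← e1]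
  rw [e3]
  exact Dvd.dvd.mul_left (sub_dvd_pow_sub_pow _ _ k) _

theorem bin_dvd (κ : Fin 3 → ℤ) (m m' : Fin 3 →₀ ℕ) (k : ℤ)
    (h : ∀ l, (m l : ℤ) - m' l = k * κ l) :
    bin κ ∣ MvPolynomial.monomial m 1 - MvPolynomial.monomial m' 1 := by
  rcases le_or_gt 0 k with hk | hk
  · refine bin_dvd_nat κ m m' k.toNat fun l => ?_
    rw [h l, Int.toNat_of_nonneg hk]
  · rw [← neg_sub, dvd_neg]
    refine bin_dvd_nat κ m' m (-k).toNat fun l => ?_
    rw [Int.toNat_of_nonneg (by omega)]
    have := h l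
    linarith

theorem bin_degree (κ : Fin 3 → ℤ) (hκ : κ ≠ 0) : 0 < (bin κ).totalDegree := by
  set κp : Fin 3 →₀ ℕ := Finsupp.equivFunOnFinite.symm fun l => (κ l).toNat with hκp
  set κm : Fin 3 →₀ ℕ := Finsupp.equivFunOnFinite.symm fun l => (- κ l).toNat with hκm
  have ep : ∀ l, κp l = (κ l).toNat := fun l => rfl
  have eq : ∀ l, κm l = (- κ l).toNat := fun l => rfl
  obtain ⟨l, hl⟩ : ∃ l, κ l ≠ 0 := by
    by_contra h
    push Not at h
    exact hκ (funext h)
  have hne : κp ≠ κm := by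
    intro h
    have := DFunLike.congr_fun h l
    rw [ep, eq] at this
    omega
  have hdeg : ∀ m : Fin 3 →₀ ℕ, 0 < m l → 0 < m.sum fun _ e => e := by
    intro m hm
    rw [Finsupp.sum_fintype _ _ (fun _ => rfl)]
    exact lt_of_lt_of_le hm (Finset.single_le_sum (f := fun l => m l) (fun _ _ => Nat.zero_le _)
      (Finset.mem_univ l))
  rcases lt_or_gt_of_ne hl with h0 | h0
  · refine lt_of_lt_of_le (hdeg κm (by rw [eq]; omega)) (MvPolynomial.le_totalDegree ?_)
    rw [MvPolynomial.mem_support_iff, bin, MvPolynomial.coeff_sub, MvPolynomial.coeff_monomial,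
      MvPolynomial.coeff_monomial, if_neg hne, if_pos rfl, zero_sub]
    exact neg_ne_zero.mpr one_ne_zero
  · refine lt_of_lt_of_le (hdeg κp (by rw [ep]; omega)) (MvPolynomial.le_totalDegree ?_)
    rw [MvPolynomial.mem_support_iff, bin, MvPolynomial.coeff_sub, MvPolynomial.coeff_monomial,
      MvPolynomial.coeff_monomial, if_pos rfl, if_neg hne.symm, sub_zero]
    exact one_ne_zero

theorem eval_bin (κ : Fin 3 → ℤ) (t : Fin 3 → ℂ) (ht : ∀ l, t l ≠ 0)
    (h : MvPolynomial.eval t (bin κ) = 0) : ∏ l, t l ^ κ l = 1 := by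
  rw [bin, map_sub, MvPolynomial.eval_monomial, MvPolynomial.eval_monomial, one_mul, one_mul,
    Finsupp.prod_fintype _ _ (fun _ => pow_zero _), Finsupp.prod_fintype _ _ (fun _ => pow_zero _),
    sub_eq_zero] at h
  have h1 : ∏ l, t l ^ κ l * t l ^ (- κ l).toNat = ∏ l, t l ^ (κ l).toNat := by
    refine Finset.prod_congr rfl fun l _ => ?_
    rw [← zpow_natCast, ← zpow_natCast, ← zpow_add₀ (ht l)]
    congr 1
    omega
  have h2 : ∏ l, t l ^ (- κ l).toNat ≠ 0 :=
    Finset.prod_ne_zero_iff.mpr fun l _ => pow_ne_zero _ (ht l)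
  rw [Finset.prod_mul_distrib] at h1
  apply mul_right_cancel₀ h2
  rw [h1, one_mul]
  exact h

theorem continuousAt_G (e : Fin s → ℤ) (w : ℂ) (hw : ∀ i, w ≠ a i) : ContinuousAt (G a e) w := by
  unfold G
  refine tendsto_finsetProd _ fun i _ => ?_
  exact ((continuousAt_id.sub continuousAt_const).zpow₀ _ (Or.inl (sub_ne_zero.mpr (hw i))))

/-- cancellation of a binomial -/
theorem van_of_mul (ha : Function.Injective a) (hc : ∀ l, c l ≠ 0) (κ : Fin 3 → ℤ)
    (hκ : ex n κ ≠ 0) (W : MvPolynomial (Fin 3) ℂ) (h : Van a n c (bin κ * W)) :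
    Van a n c W := by
  intro y w₀ hy hw₀
  set f : ℂ → ℂ := fun w =>
    MvPolynomial.eval (fun l => F a n c y l * starRingEnd ℂ (F a n c w l)) W with hf
  have hFc : ∀ l, ContinuousAt (fun w => F a n c w l) w₀ := fun l =>
    continuousAt_const.mul (continuousAt_G a _ w₀ hw₀)
  have hcont : ContinuousAt f w₀ := by
    have h1 : ContinuousAt (fun w => fun l => F a n c y l * starRingEnd ℂ (F a n c w l)) w₀ :=
      tendsto_pi_nhds.mpr fun l =>
        continuousAt_const.mul ((Complex.continuous_conj.continuousAt).comp (hFc l))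
    exact ContinuousAt.comp (g := fun t : Fin 3 → ℂ => MvPolynomial.eval t W)
      (MvPolynomial.continuous_eval W).continuousAt h1
  set ξ : ℂ := starRingEnd ℂ (((∏ l, c l ^ κ l) * G a (ex n κ) y)⁻¹) / ∏ l, c l ^ κ l with hξ
  have hcκ : ∏ l, c l ^ κ l ≠ 0 := Finset.prod_ne_zero_iff.mpr fun l _ => zpow_ne_zero _ (hc l)
  have hev : ∀ᶠ w in 𝓝[≠] w₀, f w = 0 := by
    have hfin := finite_level a ha (ex n κ) hκ ξ
    have hfin2 : (Set.range a).Finite := Set.finite_range a
    have h1 : ((hfin.toFinset : Set ℂ) \ {w₀})ᶜ ∈ 𝓝 w₀ :=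
      (hfin.toFinset.finite_toSet.subset Set.sdiff_subset).isClosed.isOpen_compl.mem_nhds
        (by simp)
    have h2 : (Set.range a)ᶜ ∈ 𝓝 w₀ :=
      hfin2.isClosed.isOpen_compl.mem_nhds (by
        rintro ⟨i, hi⟩
        exact hw₀ i hi.symm)
    filter_upwards [nhdsWithin_le_nhds h1, nhdsWithin_le_nhds h2, self_mem_nhdsWithin] with
      w hw1 hw2 hw3
    have hwa : ∀ i, w ≠ a i := fun i hi => hw2 ⟨i, hi.symm⟩
    have h3 := h y w hy hwa
    rw [map_mul] at h3
    rcases mul_eq_zero.mp h3 with h4 | h4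
    · exfalso
      have ht : ∀ l, F a n c y l * starRingEnd ℂ (F a n c w l) ≠ 0 := fun l =>
        mul_ne_zero (F_ne_zero a n c hc y hy l) ((_root_.map_ne_zero _).mpr (F_ne_zero a n c hc w hwa l))
      have h5 := eval_bin κ _ ht h4
      simp only [mul_zpow] at h5
      rw [Finset.prod_mul_distrib] at h5
      simp only [← map_zpow₀] at h5
      rw [← map_prod, prod_F a n c y hy κ, prod_F a n c w hwa κ] at h5
      apply hw1
      refine ⟨?_, hw3⟩
      rw [Finset.mem_coe, Set.Finite.mem_toFinset]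
      refine ⟨hwa, ?_⟩
      have h6 : (∏ l, c l ^ κ l) * G a (ex n κ) y ≠ 0 :=
        mul_ne_zero hcκ (G_ne_zero a _ y hy)
      have h7 : starRingEnd ℂ ((∏ l, c l ^ κ l) * G a (ex n κ) w) =
          ((∏ l, c l ^ κ l) * G a (ex n κ) y)⁻¹ := by
        refine eq_inv_of_mul_eq_one_left ?_
        rw [mul_comm]
        exact h5
      rw [hξ, ← h7, Complex.conj_conj]
      field_simp
    · exact h4
  have h1 : Tendsto f (𝓝[≠] w₀) (𝓝 (f w₀)) := hcont.tendsto.mono_left nhdsWithin_le_nhds
  have h2 : Tendsto f (𝓝[≠] w₀) (𝓝 0) :=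
    tendsto_const_nhds.congr' (hev.mono fun w hw => hw.symm)
  exact tendsto_nhds_unique h1 h2

end Pool.Agent.Work.MP_7da6af_nt.Rat
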