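import Pool.Agent.Work.MP_7da6af_nt.Rat.Cusp
import Pool.Agent.Work.MP_7da6af_nt.Gen.FinPoly

/-! # Cusps come in opposite pairs if two level sets have infinitely many common points -/

set_option autoImplicit false

namespace Pool.Agent.Work.MP_7da6af_nt.Rat

open Polynomial
open Pool.Agent.Work.MP_7da6af_nt.Gen (cj cj_natDegree cj_eval eval_mul_cj)

/-- `p(y) cj p (w) - c q(y) cj q (w)` in the variable `w` over `ℂ[y]` -/
noncomputable def bi (p q : ℂ[X]) (c : ℂ) : ℂ[X][X] :=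
  Polynomial.C p * (cj p).map (Polynomial.C : ℂ →+* ℂ[X]) -
    Polynomial.C (Polynomial.C c * q) * (cj q).map (Polynomial.C : ℂ →+* ℂ[X])

/-- its specialisation -/
noncomputable def sp (p q : ℂ[X]) (c y : ℂ) : ℂ[X] :=
  Polynomial.C (p.eval y) * cj p - Polynomial.C (c * q.eval y) * cj q

theorem bi_map (p q : ℂ[X]) (c y : ℂ) : (bi p q c).map (evalRingHom y) = sp p q c y := by
  unfold bi sp
  have h : (evalRingHom y).comp (Polynomial.C : ℂ →+* ℂ[X]) = RingHom.id ℂ := by
    ext a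
    simp
  rw [Polynomial.map_sub, Polynomial.map_mul, Polynomial.map_mul, Polynomial.map_C,
    Polynomial.map_C, Polynomial.map_map, Polynomial.map_map, h, Polynomial.map_id,
    Polynomial.map_id]
  simp

theorem sp_eval (p q : ℂ[X]) (c y w : ℂ) :
    (sp p q c y).eval w = p.eval y * (cj p).eval w - c * q.eval y * (cj q).eval w := by
  unfold sp
  simp

/-- the coefficient of degree `max (natDegree p) (natDegree q)` of `bi p q c` -/
noncomputable def lead (p q : ℂ[X]) (c : ℂ) : ℂ[X] :=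
  (if p.natDegree = max p.natDegree q.natDegree then p else 0) -
    Polynomial.C c * (if q.natDegree = max p.natDegree q.natDegree then q else 0)

theorem cj_coeff (p : ℂ[X]) (hp : p.Monic) (M : ℕ) (hM : p.natDegree ≤ M) :
    (cj p).coeff M = if p.natDegree = M then 1 else 0 := by
  unfold cj
  rw [coeff_map]
  split_ifs with h
  · rw [← h, coeff_natDegree, hp.leadingCoeff, map_one]
  · rw [coeff_eq_zero_of_natDegree_lt (lt_of_le_of_ne hM h), map_zero]

theorem sp_coeff (p q : ℂ[X]) (hp : p.Monic) (hq : q.Monic) (c y : ℂ) :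
    (sp p q c y).coeff (max p.natDegree q.natDegree) = (lead p q c).eval y := by
  unfold sp lead
  rw [coeff_sub, coeff_C_mul, coeff_C_mul, cj_coeff p hp _ (le_max_left _ _),
    cj_coeff q hq _ (le_max_right _ _), eval_sub, eval_mul, eval_C]
  congr 1
  · split_ifs <;> simp
  · split_ifs <;> simp

theorem sp_natDegree (p q : ℂ[X]) (hp : p.Monic) (hq : q.Monic) (c y : ℂ)
    (hy : (lead p q c).eval y ≠ 0) :
    (sp p q c y).natDegree = max p.natDegree q.natDegree := by
  refine le_antisymm ?_ (le_natDegree_of_ne_zero (by rw [sp_coeff p q hp hq]; exact hy))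
  unfold sp
  refine (natDegree_sub_le _ _).trans (max_le_max ?_ ?_)
  · refine (natDegree_C_mul_le _ _).trans ?_
    rw [cj_natDegree]
  · refine (natDegree_C_mul_le _ _).trans ?_
    rw [cj_natDegree]

/-- If the common level set is infinite, then almost every point has a partner. -/
theorem partner (p1 q1 p2 q2 : ℂ[X]) (hp1 : p1.Monic) (hq1 : q1.Monic) (hp2 : p2.Monic)
    (hq2 : q2.Monic) (c1 c2 : ℝ) (hl1 : lead p1 q1 ((c1 ^ 2 : ℝ) : ℂ) ≠ 0)
    (hl2 : lead p2 q2 ((c2 ^ 2 : ℝ) : ℂ) ≠ 0)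
    (hinf : {y : ℂ | ‖p1.eval y‖ = c1 * ‖q1.eval y‖ ∧ ‖p2.eval y‖ = c2 * ‖q2.eval y‖}.Infinite)
    (y : ℂ) (hy1 : (lead p1 q1 ((c1 ^ 2 : ℝ) : ℂ)).eval y ≠ 0)
    (hy2 : (lead p2 q2 ((c2 ^ 2 : ℝ) : ℂ)).eval y ≠ 0) :
    ∃ w : ℂ, ‖p1.eval y‖ * ‖p1.eval w‖ = c1 ^ 2 * (‖q1.eval y‖ * ‖q1.eval w‖) ∧
      ‖p2.eval y‖ * ‖p2.eval w‖ = c2 ^ 2 * (‖q2.eval y‖ * ‖q2.eval w‖) := by
  set C1 : ℂ := ((c1 ^ 2 : ℝ) : ℂ) with hC1
  set C2 : ℂ := ((c2 ^ 2 : ℝ) : ℂ) with hC2
  set ρ : ℂ[X] := resultant (bi p1 q1 C1) (bi p2 q2 C2) (max p1.natDegree q1.natDegree)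
    (max p2.natDegree q2.natDegree) with hρ
  have hev : ∀ y, (lead p1 q1 C1).eval y ≠ 0 → (lead p2 q2 C2).eval y ≠ 0 →
      ρ.eval y = resultant (sp p1 q1 C1 y) (sp p2 q2 C2 y) := by
    intro y hy1 hy2
    have h1 : ρ.eval y = resultant (sp p1 q1 C1 y) (sp p2 q2 C2 y)
        (max p1.natDegree q1.natDegree) (max p2.natDegree q2.natDegree) := by
      rw [← bi_map, ← bi_map, resultant_map_map]
      rfl
    rw [h1, sp_natDegree p1 q1 hp1 hq1 C1 y hy1, sp_natDegree p2 q2 hp2 hq2 C2 y hy2]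
  have hne : ∀ y, (lead p1 q1 C1).eval y ≠ 0 → sp p1 q1 C1 y ≠ 0 := by
    intro y hy h
    have := sp_coeff p1 q1 hp1 hq1 C1 y
    rw [h, coeff_zero] at this
    exact hy this.symm
  have hself : ∀ (p q : ℂ[X]) (c : ℝ) (y : ℂ), ‖p.eval y‖ = c * ‖q.eval y‖ →
      (sp p q ((c ^ 2 : ℝ) : ℂ) y).eval (starRingEnd ℂ y) = 0 := by
    intro p q c y h
    rw [sp_eval, mul_assoc, eval_mul_cj, eval_mul_cj, h]
    push_cast
    ring
  have hroots : ∀ p : ℂ[X], p ≠ 0 → {y : ℂ | p.eval y = 0}.Finite := by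
    intro p hp
    by_contra hcon
    exact hp (eq_zero_of_infinite_isRoot p hcon)
  have hρ0 : ρ = 0 := by
    apply eq_zero_of_infinite_isRoot
    have hinf' := (hinf.sdiff (hroots _ hl1)).sdiff (hroots _ hl2)
    refine hinf'.mono ?_
    rintro y ⟨⟨⟨e1, e2⟩, e3⟩, e4⟩
    show ρ.eval y = 0
    rw [hev y e3 e4, resultant_eq_zero_iff]
    refine ⟨Or.inl (hne y e3), ?_⟩
    rintro ⟨a, b, hab⟩
    have := congrArg (fun q => q.eval (starRingEnd ℂ y)) hab
    simp only [eval_add, eval_mul, eval_one] at this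
    rw [hself p1 q1 c1 y e1, hself p2 q2 c2 y e2, mul_zero, mul_zero, add_zero] at this
    exact zero_ne_one this
  have h3 := hev y hy1 hy2
  rw [hρ0, eval_zero] at h3
  have h4 := (resultant_eq_zero_iff.mp h3.symm).2
  rw [isCoprime_iff_aeval_ne_zero_of_isAlgClosed ℂ ℂ] at h4
  push Not at h4
  obtain ⟨w, hw1, hw2⟩ := h4
  have key : ∀ (p q : ℂ[X]) (c : ℝ), (sp p q ((c ^ 2 : ℝ) : ℂ) y).eval w = 0 →
      ‖p.eval y‖ * ‖p.eval (starRingEnd ℂ w)‖ =
        c ^ 2 * (‖q.eval y‖ * ‖q.eval (starRingEnd ℂ w)‖) := by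
    intro p q c h
    rw [sp_eval, sub_eq_zero] at h
    have h1 := congrArg norm h
    have h2 : ∀ r : ℂ[X], ‖(cj r).eval w‖ = ‖r.eval (starRingEnd ℂ w)‖ := by
      intro r
      have := cj_eval r (starRingEnd ℂ w)
      rw [Complex.conj_conj] at this
      rw [this, RCLike.norm_conj]
    rw [norm_mul, norm_mul, norm_mul, h2, h2, Complex.norm_real,
      Real.norm_of_nonneg (sq_nonneg c)] at h1
    rw [h1]
    ring
  exact ⟨starRingEnd ℂ w, key p1 q1 c1 hw1, key p2 q2 c2 hw2⟩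

section

variable {K : Type} [Field K] {s : ℕ} (a : Fin s → K)

/-- the numerator -/
noncomputable def num (e : Fin s → ℤ) : K[X] := ∏ i, (X - C (a i)) ^ (e i).toNat

theorem num_monic (e : Fin s → ℤ) : (num a e).Monic :=
  monic_prod_of_monic _ _ fun i _ => (monic_X_sub_C (a i)).pow _

theorem num_eval (e : Fin s → ℤ) (y : K) :
    (num a e).eval y = ∏ i, (y - a i) ^ (e i).toNat := by
  unfold num
  rw [eval_prod]
  simp

theorem num_ne_zero (e : Fin s → ℤ) (y : K) (hy : ∀ i, 0 < e i → y ≠ a i) :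
    (num a e).eval y ≠ 0 := by
  rw [num_eval]
  refine Finset.prod_ne_zero_iff.mpr fun i _ => ?_
  by_cases h : 0 < e i
  · exact pow_ne_zero _ (sub_ne_zero.mpr (hy i h))
  · have : (e i).toNat = 0 := by omega
    rw [this, pow_zero]
    exact one_ne_zero

theorem num_eq_zero (e : Fin s → ℤ) (i : Fin s) (h : 0 < e i) : (num a e).eval (a i) = 0 := by
  rw [num_eval]
  refine Finset.prod_eq_zero (Finset.mem_univ i) ?_
  rw [sub_self, zero_pow]
  omega

theorem num_mul (e : Fin s → ℤ) (y : K) (hy : ∀ i, e i ≠ 0 → y ≠ a i) :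
    G a e y * (num a (-e)).eval y = (num a e).eval y := by
  unfold G
  rw [num_eval, num_eval, ← Finset.prod_mul_distrib]
  refine Finset.prod_congr rfl fun i _ => ?_
  by_cases h : e i = 0
  · simp [h]
  · have h0 : y - a i ≠ 0 := sub_ne_zero.mpr (hy i h)
    rw [← zpow_natCast, ← zpow_natCast, ← zpow_add₀ h0]
    congr 1
    simp only [Pi.neg_apply]
    omega

theorem num_natDegree (e : Fin s → ℤ) : (num a e).natDegree = ∑ i, (e i).toNat := by
  unfold num
  rw [natDegree_prod_of_monic _ _ fun i _ => (monic_X_sub_C (a i)).pow _]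
  refine Finset.sum_congr rfl fun i _ => ?_
  rw [natDegree_pow, natDegree_X_sub_C, mul_one]

/-- the level sets of a nonconstant product are finite -/
theorem finite_level (ha : Function.Injective a) (e : Fin s → ℤ) (he : e ≠ 0) (ξ : K) :
    {w : K | (∀ i, w ≠ a i) ∧ G a e w = ξ}.Finite := by
  by_contra hinf
  obtain ⟨i, hi⟩ : ∃ i, e i ≠ 0 := by
    by_contra hcon
    push Not at hcon
    exact he (funext hcon)
  have hξ : ξ ≠ 0 := by
    obtain ⟨w, hw, h⟩ := Set.Infinite.nonempty hinf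
    rw [← h]
    exact Finset.prod_ne_zero_iff.mpr fun i _ => zpow_ne_zero _ (sub_ne_zero.mpr (hw i))
  have h1 : num a e - C ξ * num a (-e) = 0 := by
    apply eq_zero_of_infinite_isRoot
    refine Set.Infinite.mono ?_ hinf
    rintro w ⟨hw, h⟩
    show (num a e - C ξ * num a (-e)).eval w = 0
    rw [eval_sub, eval_mul, eval_C, ← h, num_mul a e w fun i _ => hw i, sub_self]
  have h3 := congrArg (fun r => r.eval (a i)) h1
  simp only [eval_sub, eval_mul, eval_C, eval_zero] at h3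
  rcases lt_or_gt_of_ne hi with hi | hi
  · have h4 : (num a (-e)).eval (a i) = 0 := num_eq_zero a (-e) i (by simpa using hi)
    have h5 : (num a e).eval (a i) ≠ 0 := by
      refine num_ne_zero a e (a i) fun j hj hij => ?_
      have := ha hij
      subst this
      omega
    rw [h4, mul_zero, sub_zero] at h3
    exact h5 h3
  · have h4 : (num a e).eval (a i) = 0 := num_eq_zero a e i hi
    have h5 : (num a (-e)).eval (a i) ≠ 0 := by
      refine num_ne_zero a (-e) (a i) fun j hj hij => ?_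
      have := ha hij
      subst this
      simp only [Pi.neg_apply] at hj
      omega
    rw [h4, zero_sub, neg_eq_zero] at h3
    exact (mul_ne_zero hξ h5) h3

end

variable {s : ℕ} (a : Fin s → ℂ)

theorem norm_G (e : Fin s → ℤ) (y : ℂ) (hy : ∀ i, e i ≠ 0 → y ≠ a i) :
    ‖G a e y‖ * ‖(num a (-e)).eval y‖ = ‖(num a e).eval y‖ := by
  rw [← norm_mul, num_mul a e y hy]

theorem lead_ne_zero (ha : Function.Injective a) (e : Fin s → ℤ) (he : e ≠ 0) (c : ℂ)
    (hc : c ≠ 0) : lead (num a e) (num a (-e)) c ≠ 0 := by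
  intro h0
  unfold lead at h0
  set p := num a e with hp
  set q := num a (-e) with hq
  have hpm : p.Monic := num_monic a e
  have hqm : q.Monic := num_monic a (-e)
  by_cases h1 : p.natDegree = max p.natDegree q.natDegree
  · by_cases h2 : q.natDegree = max p.natDegree q.natDegree
    · rw [if_pos h1, if_pos h2] at h0
      obtain ⟨i, hi⟩ : ∃ i, e i ≠ 0 := by
        by_contra hcon
        push Not at hcon
        exact he (funext hcon)
      have h3 := congrArg (fun r => r.eval (a i)) h0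
      simp only [eval_sub, eval_mul, eval_C, eval_zero] at h3
      rcases lt_or_gt_of_ne hi with hi | hi
      · have h4 : q.eval (a i) = 0 := num_eq_zero a (-e) i (by simpa using hi)
        have h5 : p.eval (a i) ≠ 0 := by
          refine num_ne_zero a e (a i) fun j hj hij => ?_
          have := ha hij
          subst this
          omega
        rw [h4, mul_zero, sub_zero] at h3
        exact h5 h3
      · have h4 : p.eval (a i) = 0 := num_eq_zero a e i hi
        have h5 : q.eval (a i) ≠ 0 := by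
          refine num_ne_zero a (-e) (a i) fun j hj hij => ?_
          have := ha hij
          subst this
          simp only [Pi.neg_apply] at hj
          omega
        rw [h4, zero_sub, neg_eq_zero] at h3
        exact (mul_ne_zero hc h5) h3
    · rw [if_pos h1, if_neg h2, mul_zero, sub_zero] at h0
      exact hpm.ne_zero h0
  · have h2 : q.natDegree = max p.natDegree q.natDegree := by
      rcases le_total p.natDegree q.natDegree with h | h
      · exact (max_eq_right h).symm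
      · exact absurd (max_eq_left h).symm h1
    rw [if_neg h1, if_pos h2, zero_sub, neg_eq_zero] at h0
    exact (mul_ne_zero (C_ne_zero.mpr hc) hqm.ne_zero) h0

/-- the partner, for products of powers of linear polynomials -/
theorem partner_G (ha : Function.Injective a) (e e' : Fin s → ℤ) (he : e ≠ 0) (he' : e' ≠ 0)
    (γ γ' : ℝ) (hinf : {y : ℂ | (∀ i, y ≠ a i) ∧ ‖G a e y‖ = γ ∧ ‖G a e' y‖ = γ'}.Infinite) :
    0 < γ ∧ 0 < γ' ∧ ∃ Bad : Set ℂ, Bad.Finite ∧ ∀ y ∉ Bad, (∀ i, y ≠ a i) →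
      ∃ w : ℂ, (∀ i, e i ≠ 0 → w ≠ a i) ∧ (∀ i, e' i ≠ 0 → w ≠ a i) ∧
        ‖G a e y‖ * ‖G a e w‖ = γ ^ 2 ∧ ‖G a e' y‖ * ‖G a e' w‖ = γ' ^ 2 := by
  obtain ⟨y₀, hy₀, hg, hg'⟩ := hinf.nonempty
  have hγ : 0 < γ := by
    rw [← hg]
    exact norm_G_pos a e y₀ fun i _ => hy₀ i
  have hγ' : 0 < γ' := by
    rw [← hg']
    exact norm_G_pos a e' y₀ fun i _ => hy₀ i
  have hc : ((γ ^ 2 : ℝ) : ℂ) ≠ 0 := by
    rw [Ne, Complex.ofReal_eq_zero]
    positivity
  have hc' : ((γ' ^ 2 : ℝ) : ℂ) ≠ 0 := by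
    rw [Ne, Complex.ofReal_eq_zero]
    positivity
  have hl := lead_ne_zero a ha e he _ hc
  have hl' := lead_ne_zero a ha e' he' _ hc'
  have hroots : ∀ p : ℂ[X], p ≠ 0 → {y : ℂ | p.eval y = 0}.Finite := by
    intro p hp
    by_contra hcon
    exact hp (eq_zero_of_infinite_isRoot p hcon)
  refine ⟨hγ, hγ', _, (hroots _ hl).union (hroots _ hl'), fun y hy hya => ?_⟩
  have hy1 : (lead (num a e) (num a (-e)) ((γ ^ 2 : ℝ) : ℂ)).eval y ≠ 0 := fun h =>
    hy (Or.inl h)
  have hy2 : (lead (num a e') (num a (-e')) ((γ' ^ 2 : ℝ) : ℂ)).eval y ≠ 0 := fun h =>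
    hy (Or.inr h)
  obtain ⟨w, hw1, hw2⟩ := partner (num a e) (num a (-e)) (num a e') (num a (-e'))
    (num_monic a e) (num_monic a (-e)) (num_monic a e') (num_monic a (-e')) γ γ' hl hl'
    (hinf.mono (by
      rintro z ⟨hz, h1, h2⟩
      refine ⟨?_, ?_⟩
      · rw [← norm_G a e z fun i _ => hz i, h1]
      · rw [← norm_G a e' z fun i _ => hz i, h2])) y hy1 hy2
  -- the partner is not a zero or pole
  have hne : ∀ (f : Fin s → ℤ) (c : ℝ), 0 < c →
      ‖(num a f).eval y‖ * ‖(num a f).eval w‖ =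
        c ^ 2 * (‖(num a (-f)).eval y‖ * ‖(num a (-f)).eval w‖) → ∀ i, f i ≠ 0 → w ≠ a i := by
    intro f c hc h i hi hwi
    have n1 : ‖(num a f).eval y‖ ≠ 0 := norm_ne_zero_iff.mpr (num_ne_zero a f y fun i _ => hya i)
    have n2 : ‖(num a (-f)).eval y‖ ≠ 0 :=
      norm_ne_zero_iff.mpr (num_ne_zero a (-f) y fun i _ => hya i)
    subst hwi
    rcases lt_or_gt_of_ne hi with hi | hi
    · have h4 : (num a (-f)).eval (a i) = 0 := num_eq_zero a (-f) i (by simpa using hi)
      have h5 : ‖(num a f).eval (a i)‖ ≠ 0 := by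
        refine norm_ne_zero_iff.mpr (num_ne_zero a f (a i) fun j hj hij => ?_)
        have := ha hij
        subst this
        omega
      rw [h4, norm_zero, mul_zero, mul_zero] at h
      exact (mul_ne_zero n1 h5) h
    · have h4 : (num a f).eval (a i) = 0 := num_eq_zero a f i hi
      have h5 : ‖(num a (-f)).eval (a i)‖ ≠ 0 := by
        refine norm_ne_zero_iff.mpr (num_ne_zero a (-f) (a i) fun j hj hij => ?_)
        have := ha hij
        subst this
        simp only [Pi.neg_apply] at hj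
        omega
      rw [h4, norm_zero, mul_zero] at h
      exact (mul_ne_zero (pow_ne_zero 2 hc.ne') (mul_ne_zero n2 h5)) h.symm
  have hG : ∀ (f : Fin s → ℤ) (c : ℝ), 0 < c →
      ‖(num a f).eval y‖ * ‖(num a f).eval w‖ =
        c ^ 2 * (‖(num a (-f)).eval y‖ * ‖(num a (-f)).eval w‖) →
      ‖G a f y‖ * ‖G a f w‖ = c ^ 2 := by
    intro f c hc h
    have hwf := hne f c hc h
    have n2 : ‖(num a (-f)).eval y‖ ≠ 0 :=
      norm_ne_zero_iff.mpr (num_ne_zero a (-f) y fun i _ => hya i)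
    have n3 : ‖(num a (-f)).eval w‖ ≠ 0 := by
      refine norm_ne_zero_iff.mpr (num_ne_zero a (-f) w fun i hi => hwf i ?_)
      simp only [Pi.neg_apply] at hi
      omega
    rw [← norm_G a f y fun i _ => hya i, ← norm_G a f w hwf] at h
    apply mul_right_cancel₀ (mul_ne_zero n2 n3)
    linear_combination h
  exact ⟨w, hne e γ hγ hw1, hne e' γ' hγ' hw2, hG e γ hγ hw1, hG e' γ' hγ' hw2⟩

/-- If two level sets have infinitely many common points, then the vectors of exponents at the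
cusps come in opposite pairs. -/
theorem opposite (ha : Function.Injective a) (e e' : Fin s → ℤ) (he : e ≠ 0) (he' : e' ≠ 0)
    (γ γ' : ℝ) (hinf : {y : ℂ | (∀ i, y ≠ a i) ∧ ‖G a e y‖ = γ ∧ ‖G a e' y‖ = γ'}.Infinite)
    (i : Option (Fin s)) (hi : cusp e i ≠ 0 ∨ cusp e' i ≠ 0) :
    ∃ j, cusp e i * cusp e' j = cusp e' i * cusp e j ∧
      cusp e i * cusp e j + cusp e' i * cusp e' j < 0 := by
  obtain ⟨hγ, hγ', Bad, hBad, hpart⟩ := partner_G a ha e e' he he' γ γ' hinf
  obtain ⟨C₁, hC₁, hnear⟩ := near_cusp a ha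
  obtain ⟨C₂, hC₂, happ⟩ := approach a ha
  set E : ℝ := ∑ i, |(e i : ℝ)| with hE
  set E' : ℝ := ∑ i, |(e' i : ℝ)| with hE'
  have hE0 : 0 ≤ E := Finset.sum_nonneg fun i _ => abs_nonneg _
  have hE'0 : 0 ≤ E' := Finset.sum_nonneg fun i _ => abs_nonneg _
  set K : ℝ := E * C₂ + E * C₁ + |Real.log (γ ^ 2)| with hK
  set K' : ℝ := E' * C₂ + E' * C₁ + |Real.log (γ' ^ 2)| with hK'
  have hK0 : 0 ≤ K := by rw [hK]; positivity
  have hK'0 : 0 ≤ K' := by rw [hK']; positivity
  -- a bound for all `j`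
  set B : ℝ := ∑ j : Option (Fin s), ((|(cusp e j : ℝ)| + |(cusp e i : ℝ)|) * K' +
    (|(cusp e' j : ℝ)| + |(cusp e' i : ℝ)|) * K' + (|(cusp e j : ℝ)| + |(cusp e i : ℝ)|) * K +
    (|(cusp e' j : ℝ)| + |(cusp e' i : ℝ)|) * K +
    (|(cusp e i : ℝ) * cusp e j + (cusp e' i : ℝ) * cusp e' j|) * C₁) with hB
  have hBj : ∀ j : Option (Fin s), (|(cusp e j : ℝ)| + |(cusp e i : ℝ)|) * K' +
    (|(cusp e' j : ℝ)| + |(cusp e' i : ℝ)|) * K' + (|(cusp e j : ℝ)| + |(cusp e i : ℝ)|) * K +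
    (|(cusp e' j : ℝ)| + |(cusp e' i : ℝ)|) * K +
    (|(cusp e i : ℝ) * cusp e j + (cusp e' i : ℝ) * cusp e' j|) * C₁ ≤ B := by
    intro j
    exact Finset.single_le_sum (f := fun j : Option (Fin s) =>
      (|(cusp e j : ℝ)| + |(cusp e i : ℝ)|) * K' +
      (|(cusp e' j : ℝ)| + |(cusp e' i : ℝ)|) * K' + (|(cusp e j : ℝ)| + |(cusp e i : ℝ)|) * K +
      (|(cusp e' j : ℝ)| + |(cusp e' i : ℝ)|) * K +
      (|(cusp e i : ℝ) * cusp e j + (cusp e' i : ℝ) * cusp e' j|) * C₁)
      (fun j _ => by positivity) (Finset.mem_univ j)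
  obtain ⟨y, ⟨hya, Λ, hΛ, hyΛ⟩, hyB⟩ := ((happ i (B + 1)).sdiff hBad).nonempty
  obtain ⟨w, hw, hw', hgw, hgw'⟩ := hpart y hyB hya
  obtain ⟨j, μ, hμ, hwμ⟩ := hnear w
  have key : ∀ (f : Fin s → ℤ) (c : ℝ), 0 < c → (∀ i, f i ≠ 0 → w ≠ a i) →
      ‖G a f y‖ * ‖G a f w‖ = c ^ 2 → |(cusp f i : ℝ) * Λ + (cusp f j : ℝ) * μ| ≤
        (∑ i, |(f i : ℝ)|) * C₂ + (∑ i, |(f i : ℝ)|) * C₁ + |Real.log (c ^ 2)| := by
    intro f c hc hwf h
    have h1 := log_G_cusp a f y (fun i _ => hya i) i Λ C₂ fun i _ => hyΛ i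
    have h2 := log_G_cusp a f w hwf j μ C₁ hwμ
    have h3 := congrArg Real.log h
    rw [Real.log_mul (norm_G_pos a f y fun i _ => hya i).ne' (norm_G_pos a f w hwf).ne'] at h3
    have e1 : (cusp f i : ℝ) * Λ + (cusp f j : ℝ) * μ =
        Real.log (c ^ 2) - (Real.log ‖G a f y‖ - (cusp f i : ℝ) * Λ) -
          (Real.log ‖G a f w‖ - (cusp f j : ℝ) * μ) := by
      rw [← h3]
      ring
    rw [e1]
    refine (abs_sub _ _).trans ?_
    have := abs_sub (Real.log (c ^ 2)) (Real.log ‖G a f y‖ - (cusp f i : ℝ) * Λ)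
    linarith
  have k1 := key e γ hγ hw hgw
  have k2 := key e' γ' hγ' hw' hgw'
  rw [← hE, ← hK] at k1
  rw [← hE', ← hK'] at k2
  have hBj' := hBj j
  set x : ℝ := (cusp e i : ℝ) with hx
  set x' : ℝ := (cusp e' i : ℝ) with hx'
  set z : ℝ := (cusp e j : ℝ) with hz
  set z' : ℝ := (cusp e' j : ℝ) with hz'
  have hΛ1 : B + 1 ≤ - Λ := by linarith
  refine ⟨j, ?_, ?_⟩
  · by_contra hcon
    have h1 : (1 : ℝ) ≤ |x * z' - x' * z| := by
      have : (1 : ℤ) ≤ |cusp e i * cusp e' j - cusp e' i * cusp e j| :=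
        Int.one_le_abs (sub_ne_zero.mpr hcon)
      have := (Int.cast_le (R := ℝ)).mpr this
      push_cast at this
      exact this
    have h2 : (x * z' - x' * z) * Λ = z' * (x * Λ + z * μ) - z * (x' * Λ + z' * μ) := by ring
    have h3 : |(x * z' - x' * z) * Λ| ≤ |z'| * K + |z| * K' := by
      rw [h2]
      refine (abs_sub _ _).trans ?_
      rw [abs_mul, abs_mul]
      exact add_le_add (mul_le_mul_of_nonneg_left k1 (abs_nonneg _))
        (mul_le_mul_of_nonneg_left k2 (abs_nonneg _))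
    rw [abs_mul] at h3
    have h4 : |Λ| ≤ |x * z' - x' * z| * |Λ| := le_mul_of_one_le_left (abs_nonneg _) h1
    have h5 : -Λ ≤ |Λ| := neg_le_abs Λ
    have a1 : 0 ≤ |x| * K' := by positivity
    have a2 : 0 ≤ |x'| * K' := by positivity
    have a3 : 0 ≤ |x| * K := by positivity
    have a4 : 0 ≤ |x'| * K := by positivity
    have a5 : 0 ≤ |z| * K := by positivity
    have a6 : 0 ≤ |z'| * K' := by positivity
    have a7 : 0 ≤ |x * z + x' * z'| * C₁ := by positivity
    nlinarith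
  · by_contra hcon
    push Not at hcon
    have hcon' : 0 ≤ x * z + x' * z' := by
      have := (Int.cast_le (R := ℝ)).mpr hcon
      push_cast at this
      exact this
    have hN : (1 : ℝ) ≤ x ^ 2 + x' ^ 2 := by
      have : (1 : ℤ) ≤ (cusp e i) ^ 2 + (cusp e' i) ^ 2 := by
        rcases hi with h | h
        · have h1 : 0 < (cusp e i) ^ 2 := by positivity
          have h2 : 0 ≤ (cusp e' i) ^ 2 := sq_nonneg _
          omega
        · have h1 : 0 < (cusp e' i) ^ 2 := by positivity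
          have h2 : 0 ≤ (cusp e i) ^ 2 := sq_nonneg _
          omega
      have := (Int.cast_le (R := ℝ)).mpr this
      push_cast at this
      exact this
    have h2 : (x ^ 2 + x' ^ 2) * Λ + (x * z + x' * z') * μ =
        x * (x * Λ + z * μ) + x' * (x' * Λ + z' * μ) := by ring
    have h3 : |(x ^ 2 + x' ^ 2) * Λ + (x * z + x' * z') * μ| ≤ |x| * K + |x'| * K' := by
      rw [h2]
      refine (abs_add_le _ _).trans ?_
      rw [abs_mul, abs_mul]
      exact add_le_add (mul_le_mul_of_nonneg_left k1 (abs_nonneg _))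
        (mul_le_mul_of_nonneg_left k2 (abs_nonneg _))
    have h4 : (x * z + x' * z') * μ ≤ (x * z + x' * z') * C₁ :=
      mul_le_mul_of_nonneg_left hμ hcon'
    have h5 := neg_abs_le ((x ^ 2 + x' ^ 2) * Λ + (x * z + x' * z') * μ)
    have hΛneg : Λ ≤ 0 := by
      have : 0 ≤ B := by
        rw [hB]
        exact Finset.sum_nonneg fun j _ => by positivity
      linarith
    have h6 : (x ^ 2 + x' ^ 2) * Λ ≤ Λ := by nlinarith
    have h7 : (x * z + x' * z') * C₁ = |x * z + x' * z'| * C₁ := by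
      rw [abs_of_nonneg hcon']
    have a1 : 0 ≤ |z| * K' := by positivity
    have a2 : 0 ≤ |z'| * K' := by positivity
    have a3 : 0 ≤ |x| * K' := by positivity
    have a4 : 0 ≤ |x'| * K := by positivity
    have a5 : 0 ≤ |z| * K := by positivity
    have a6 : 0 ≤ |z'| * K := by positivity
    nlinarith

end Pool.Agent.Work.MP_7da6af_nt.Rat
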