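import Pool.Agent.Work.MP_7da6af_nt.Rat.Irr

/-! # The amoeba condition for rational curves with asymmetric cusps -/

set_option autoImplicit false

namespace Pool.Agent.Work.MP_7da6af_nt.Rat

open Polynomial Filter Topology

/-! ### integer vectors -/

theorem par_of_orth (κ κ' U : Fin 3 → ℤ) (m : Fin 3 → ℤ)
    (hm : m = ![κ 1 * κ' 2 - κ 2 * κ' 1, κ 2 * κ' 0 - κ 0 * κ' 2, κ 0 * κ' 1 - κ 1 * κ' 0])
    (hm0 : m ≠ 0) (h : ∑ l, κ l * U l = 0) (h' : ∑ l, κ' l * U l = 0) :
    ∃ N : ℕ, 0 < N ∧ ∃ r : ℤ, ∀ l, (N : ℤ) * U l = r * m l := by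
  obtain ⟨i, hi⟩ : ∃ i, m i ≠ 0 := by
    by_contra hcon
    push Not at hcon
    exact hm0 (funext hcon)
  have hcr : ∀ j, m i * U j = U i * m j := by
    rw [Fin.sum_univ_three] at h h'
    subst hm
    intro j
    fin_cases i <;> fin_cases j <;>
      simp only [Matrix.cons_val_zero, Matrix.cons_val_one, Matrix.cons_val_two,
        Matrix.head_cons, Matrix.tail_cons, Fin.zero_eta, Fin.mk_one, Fin.reduceFinMk] <;>
      first
      | ring1
      | linear_combination κ' 0 * h - κ 0 * h'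
      | linear_combination κ' 1 * h - κ 1 * h'
      | linear_combination κ' 2 * h - κ 2 * h'
      | linear_combination κ 0 * h' - κ' 0 * h
      | linear_combination κ 1 * h' - κ' 1 * h
      | linear_combination κ 2 * h' - κ' 2 * h
  refine ⟨(m i).natAbs, Int.natAbs_pos.mpr hi, (m i).sign * U i, fun l => ?_⟩
  have h1 := hcr l
  have h2 : ((m i).natAbs : ℤ) = (m i).sign * m i := (Int.sign_mul_self_eq_natAbs (m i)).symm
  rw [h2, mul_assoc, h1]
  ring

section

variable {s : ℕ} (n : Fin s → Fin 3 → ℤ)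

/-- the exponent vectors at the cusps -/
def cv (j : Option (Fin s)) (l : Fin 3) : ℤ := cusp (fun i => n i l) j

/-- modulo every line the vectors of exponents do not come in opposite pairs -/
def Asym : Prop := ∀ m : Fin 3 → ℤ, m ≠ 0 → ∃ i : Option (Fin s), ∀ j : Option (Fin s),
  ∀ p q : ℕ, 0 < p → 0 < q → ∀ r : ℤ, ∃ l, (q : ℤ) * cv n j l + (p : ℤ) * cv n i l ≠ r * m l

theorem cusp_ex (κ : Fin 3 → ℤ) (j : Option (Fin s)) :
    cusp (ex n κ) j = ∑ l, κ l * cv n j l := by
  cases j with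
  | some i => rfl
  | none =>
    simp only [cv, cusp, ex]
    rw [Finset.sum_comm]
    simp only [← Finset.mul_sum, mul_neg, Finset.sum_neg_distrib]

theorem sum_cusp (e : Fin s → ℤ) : ∑ j, cusp e j = 0 := by
  rw [Fintype.sum_option]
  simp [cusp]

theorem contra_of_par {m : Fin 3 → ℤ} {i : Option (Fin s)}
    (hi : ∀ j : Option (Fin s), ∀ p q : ℕ, 0 < p → 0 < q → ∀ r : ℤ,
      ∃ l, (q : ℤ) * cv n j l + (p : ℤ) * cv n i l ≠ r * m l) (κ κ' : Fin 3 → ℤ)
    (hm : m = ![κ 1 * κ' 2 - κ 2 * κ' 1, κ 2 * κ' 0 - κ 0 * κ' 2, κ 0 * κ' 1 - κ 1 * κ' 0])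
    (hm0 : m ≠ 0) (j : Option (Fin s)) (p q : ℕ) (hp : 0 < p) (hq : 0 < q)
    (h : (q : ℤ) * cusp (ex n κ) j + p * cusp (ex n κ) i = 0)
    (h' : (q : ℤ) * cusp (ex n κ') j + p * cusp (ex n κ') i = 0) : False := by
  have hlin : ∀ κ : Fin 3 → ℤ, ∑ l, κ l * ((q : ℤ) * cv n j l + p * cv n i l) =
      (q : ℤ) * cusp (ex n κ) j + p * cusp (ex n κ) i := by
    intro κ
    rw [cusp_ex, cusp_ex, Finset.mul_sum, Finset.mul_sum, ← Finset.sum_add_distrib]
    refine Finset.sum_congr rfl fun l _ => ?_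
    ring
  obtain ⟨N, hN, r, hr⟩ := par_of_orth κ κ' (fun l => (q : ℤ) * cv n j l + p * cv n i l) m hm hm0
    (by rw [hlin]; exact h) (by rw [hlin]; exact h')
  obtain ⟨l, hl⟩ := hi j (N * p) (N * q) (by positivity) (by positivity) r
  apply hl
  rw [← hr l]
  push_cast
  ring

theorem contra_zero {m : Fin 3 → ℤ} {i : Option (Fin s)}
    (hi : ∀ j : Option (Fin s), ∀ p q : ℕ, 0 < p → 0 < q → ∀ r : ℤ,
      ∃ l, (q : ℤ) * cv n j l + (p : ℤ) * cv n i l ≠ r * m l) (κ κ' : Fin 3 → ℤ)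
    (hm : m = ![κ 1 * κ' 2 - κ 2 * κ' 1, κ 2 * κ' 0 - κ 0 * κ' 2, κ 0 * κ' 1 - κ 1 * κ' 0])
    (hm0 : m ≠ 0) (h : cusp (ex n κ) i = 0) (h' : cusp (ex n κ') i = 0) : False :=
  contra_of_par n hi κ κ' hm hm0 i 1 1 one_pos one_pos (by rw [h]; simp) (by rw [h']; simp)

/-- the exponents are not degenerate -/
theorem ex_ne_zero (hasym : Asym n) (κ : Fin 3 → ℤ) (hκ : κ ≠ 0) : ex n κ ≠ 0 := by
  intro h0
  obtain ⟨κ', m, hm, hm0⟩ : ∃ κ' m : Fin 3 → ℤ,
      m = ![κ 1 * κ' 2 - κ 2 * κ' 1, κ 2 * κ' 0 - κ 0 * κ' 2, κ 0 * κ' 1 - κ 1 * κ' 0] ∧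
      m ≠ 0 := by
    by_contra hcon
    push Not at hcon
    apply hκ
    have h1 := hcon ![1, 0, 0] _ rfl
    have h2 := hcon ![0, 1, 0] _ rfl
    funext l
    have e1 := congrFun h1 1
    have e2 := congrFun h1 2
    have e3 := congrFun h2 0
    have e4 := congrFun h2 2
    simp at e1 e2 e3 e4
    fin_cases l
    · exact e4
    · exact e2
    · exact e1
  obtain ⟨i, hi⟩ := hasym m hm0
  have hz : ∀ j, cusp (ex n κ) j = 0 := by
    intro j
    rw [h0]
    cases j with
    | none => simp [cusp]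
    | some i => rfl
  by_cases hx : cusp (ex n κ') i = 0
  · exact contra_zero n hi κ κ' hm hm0 (hz i) hx
  · -- there is a cusp on the other side
    obtain ⟨j, hj⟩ : ∃ j, cusp (ex n κ') j * cusp (ex n κ') i < 0 := by
      by_contra hcon
      push Not at hcon
      have h1 : ∑ j, cusp (ex n κ') j * cusp (ex n κ') i = 0 := by
        rw [← Finset.sum_mul, sum_cusp, zero_mul]
      have h2 := (Finset.sum_eq_zero_iff_of_nonneg fun j _ => hcon j).mp h1 i (Finset.mem_univ i)
      exact hx (mul_self_eq_zero.mp h2)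
    have hz0 : cusp (ex n κ') j ≠ 0 := by
      intro h
      rw [h, zero_mul] at hj
      exact lt_irrefl _ hj
    refine contra_of_par n hi κ κ' hm hm0 j (cusp (ex n κ') j).natAbs (cusp (ex n κ') i).natAbs
      (Int.natAbs_pos.mpr hz0) (Int.natAbs_pos.mpr hx) (by rw [hz, hz]; simp) ?_
    rcases lt_or_gt_of_ne hx with h1 | h1
    · have h2 : 0 < cusp (ex n κ') j := by nlinarith
      rw [Int.natCast_natAbs, Int.natCast_natAbs, abs_of_neg h1, abs_of_pos h2]
      ring
    · have h2 : cusp (ex n κ') j < 0 := by nlinarith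
      rw [Int.natCast_natAbs, Int.natCast_natAbs, abs_of_pos h1, abs_of_neg h2]
      ring

end

variable {s : ℕ} (a : Fin s → ℂ) (n : Fin s → Fin 3 → ℤ) (c : Fin 3 → ℂ)

/-- two independent monomials have finitely many common level points -/
theorem no_pair (ha : Function.Injective a) (hasym : Asym n) (κ κ' m : Fin 3 → ℤ)
    (hm : m = ![κ 1 * κ' 2 - κ 2 * κ' 1, κ 2 * κ' 0 - κ 0 * κ' 2, κ 0 * κ' 1 - κ 1 * κ' 0])
    (hm0 : m ≠ 0) (γ γ' : ℝ) :
    {y : ℂ | (∀ i, y ≠ a i) ∧ ‖G a (ex n κ) y‖ = γ ∧ ‖G a (ex n κ') y‖ = γ'}.Finite := by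
  by_contra hinf
  have hκ : κ ≠ 0 := by
    rintro rfl
    apply hm0
    rw [hm]
    ext l
    fin_cases l <;> simp
  have hκ' : κ' ≠ 0 := by
    rintro rfl
    apply hm0
    rw [hm]
    ext l
    fin_cases l <;> simp
  obtain ⟨i, hi⟩ := hasym m hm0
  by_cases hx : cusp (ex n κ) i = 0 ∧ cusp (ex n κ') i = 0
  · exact contra_zero n hi κ κ' hm hm0 hx.1 hx.2
  · have hx' : cusp (ex n κ) i ≠ 0 ∨ cusp (ex n κ') i ≠ 0 := by
      by_contra h
      push Not at h
      exact hx h
    obtain ⟨j, h1, h2⟩ := opposite a ha (ex n κ) (ex n κ') (ex_ne_zero n hasym κ hκ)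
      (ex_ne_zero n hasym κ' hκ') γ γ' hinf i hx'
    set x := cusp (ex n κ) i with hxd
    set x' := cusp (ex n κ') i with hxd'
    set z := cusp (ex n κ) j with hzd
    set z' := cusp (ex n κ') j with hzd'
    have hD : 0 < x ^ 2 + x' ^ 2 := by
      rcases hx' with h | h
      · have := sq_nonneg x'
        have : 0 < x ^ 2 := by positivity
        linarith
      · have := sq_nonneg x
        have : 0 < x' ^ 2 := by positivity
        linarith
    refine contra_of_par n hi κ κ' hm hm0 j (-(x * z + x' * z')).toNat (x ^ 2 + x' ^ 2).toNat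
      (by omega) (by omega) ?_ ?_
    · rw [Int.toNat_of_nonneg hD.le, Int.toNat_of_nonneg (by omega)]
      linear_combination -x' * h1
    · rw [Int.toNat_of_nonneg hD.le, Int.toNat_of_nonneg (by omega)]
      linear_combination x * h1

/-- a relation of least degree -/
theorem exists_min : ∃ W : MvPolynomial (Fin 3) ℂ, W ≠ 0 ∧ Van a n c W ∧
    ∀ W' : MvPolynomial (Fin 3) ℂ, W' ≠ 0 → Van a n c W' → W.totalDegree ≤ W'.totalDegree := by
  classical
  obtain ⟨W₀, h1, h2⟩ := exists_van a n c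
  have hex : ∃ k : ℕ, ∃ W : MvPolynomial (Fin 3) ℂ, W ≠ 0 ∧ Van a n c W ∧ W.totalDegree = k :=
    ⟨_, W₀, h1, h2, rfl⟩
  obtain ⟨W, h3, h4, h5⟩ := Nat.find_spec hex
  refine ⟨W, h3, h4, fun W' h6 h7 => ?_⟩
  rw [h5]
  exact Nat.find_min' hex ⟨W', h6, h7, rfl⟩

/-- a primitive relation -/
theorem exists_prim (κ₀ : Fin 3 → ℤ) (h0 : κ₀ ≠ 0) : ∃ κ : Fin 3 → ℤ, ∃ g : ℤ, g ≠ 0 ∧
    (∀ l, κ₀ l = g * κ l) ∧ ∃ u : Fin 3 → ℤ, ∑ l, u l * κ l = 1 := by
  let I : Ideal ℤ := Ideal.span (Set.range κ₀)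
  have hg : I = Ideal.span {Submodule.IsPrincipal.generator I} :=
    (Ideal.span_singleton_generator I).symm
  set g := Submodule.IsPrincipal.generator I with hgd
  have hmem : ∀ l, κ₀ l ∈ I := fun l => Ideal.subset_span ⟨l, rfl⟩
  have hdvd : ∀ l, g ∣ κ₀ l := by
    intro l
    have := hmem l
    rw [hg, Ideal.mem_span_singleton] at this
    exact this
  choose κ hκ using hdvd
  have hg0 : g ≠ 0 := by
    intro h
    apply h0
    funext l
    rw [hκ l, h, zero_mul]
    rfl
  have hgI : g ∈ I := Submodule.IsPrincipal.generator_mem I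
  obtain ⟨u, hu⟩ := Ideal.mem_span_range_iff_exists_fun.mp hgI
  refine ⟨κ, g, hg0, hκ, u, ?_⟩
  apply mul_left_cancel₀ hg0
  rw [mul_one]
  nth_rewrite 2 [← hu]
  rw [Finset.mul_sum]
  refine Finset.sum_congr rfl fun l _ => ?_
  rw [hκ l]
  ring

/-- A relation of least degree does not vanish identically on one parameter subgroups whose
integer relations are dependent. -/
theorem min_irr (ha : Function.Injective a) (hc : ∀ l, c l ≠ 0)
    (hind : ∀ κ : Fin 3 → ℤ, κ ≠ 0 → ex n κ ≠ 0) (W : MvPolynomial (Fin 3) ℂ) (hW : W ≠ 0)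
    (hv : Van a n c W)
    (hmin : ∀ W' : MvPolynomial (Fin 3) ℂ, W' ≠ 0 → Van a n c W' →
      W.totalDegree ≤ W'.totalDegree) (d : Fin 3 → ℝ)
    (hirr : ∀ κ κ' : Fin 3 → ℤ, ∑ l, (κ l : ℝ) * d l = 0 → ∑ l, (κ' l : ℝ) * d l = 0 →
      ∀ i j, κ i * κ' j = κ j * κ' i)
    (h : ∀ t : ℝ, MvPolynomial.eval (fun l => Complex.exp (2 * t * d l)) W = 0) : False := by
  classical
  set S := W.support.image (Gen.pr d) with hS
  set A : ℝ → ℂ := fun v => ∑ m ∈ W.support.filter (fun m => Gen.pr d m = v), W.coeff m with hA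
  have h1 : ∀ v ∈ S, A v = 0 := by
    apply Gen.exp_indep
    intro t
    rw [← h t, Gen.eval_exp, ← Finset.sum_fiberwise_of_maps_to (s := W.support) (t := S)
      (g := Gen.pr d) (fun m hm => Finset.mem_image_of_mem _ hm)]
    refine Finset.sum_congr rfl fun v _ => ?_
    rw [hA, Finset.sum_mul]
    refine Finset.sum_congr rfl fun m hm => ?_
    rw [(Finset.mem_filter.1 hm).2]
  -- the difference of two exponents of a class
  have hdiff : ∀ m m' : Fin 3 →₀ ℕ, Gen.pr d m = Gen.pr d m' →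
      ∑ l, (((m l : ℤ) - m' l : ℤ) : ℝ) * d l = 0 := by
    intro m m' hmm
    have : ∑ l, (((m l : ℤ) - m' l : ℤ) : ℝ) * d l = Gen.pr d m - Gen.pr d m' := by
      unfold Gen.pr
      rw [← Finset.sum_sub_distrib]
      refine Finset.sum_congr rfl fun l _ => ?_
      push_cast
      ring
    rw [this, hmm, sub_self]
  by_cases hex : ∃ κ₀ : Fin 3 → ℤ, κ₀ ≠ 0 ∧ ∑ l, (κ₀ l : ℝ) * d l = 0
  · obtain ⟨κ₀, hκ₀, hκd⟩ := hex
    obtain ⟨κ, g, hg, hκg, u, hu⟩ := exists_prim κ₀ hκ₀
    have hκ0 : κ ≠ 0 := by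
      rintro rfl
      simp at hu
    have hκd' : ∑ l, (κ l : ℝ) * d l = 0 := by
      have : (g : ℝ) * ∑ l, (κ l : ℝ) * d l = 0 := by
        rw [← hκd, Finset.mul_sum]
        refine Finset.sum_congr rfl fun l _ => ?_
        rw [hκg l]
        push_cast
        ring
      exact (mul_eq_zero.mp this).resolve_left (by exact_mod_cast hg)
    have hk : ∀ m : Fin 3 → ℤ, ∑ l, (m l : ℝ) * d l = 0 → ∃ k : ℤ, ∀ l, m l = k * κ l := by
      intro m hm
      refine ⟨∑ l, u l * m l, fun i => ?_⟩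
      rw [Finset.sum_mul]
      have h2 : ∀ l, u l * m l * κ i = u l * κ l * m i := by
        intro l
        have := hirr m κ hm hκd' l i
        linear_combination u l * this
      simp only [h2]
      rw [← Finset.sum_mul, hu, one_mul]
    -- the binomial divides
    have hdvd : bin κ ∣ W := by
      have e1 : W = ∑ v ∈ S, ∑ m ∈ W.support.filter (fun m => Gen.pr d m = v),
          MvPolynomial.monomial m (W.coeff m) := by
        rw [Finset.sum_fiberwise_of_maps_to (s := W.support) (t := S) (g := Gen.pr d)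
          (fun m hm => Finset.mem_image_of_mem _ hm)]
        exact MvPolynomial.as_sum W
      rw [e1]
      refine Finset.dvd_sum fun v hvS => ?_
      obtain ⟨m₀, hm₀, hv0⟩ := Finset.mem_image.1 hvS
      have e2 : ∑ m ∈ W.support.filter (fun m => Gen.pr d m = v),
          MvPolynomial.monomial m (W.coeff m) =
          ∑ m ∈ W.support.filter (fun m => Gen.pr d m = v), MvPolynomial.C (W.coeff m) *
            (MvPolynomial.monomial m 1 - MvPolynomial.monomial m₀ 1) := by
        have e3 : ∑ m ∈ W.support.filter (fun m => Gen.pr d m = v), MvPolynomial.C (W.coeff m) *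
            (MvPolynomial.monomial m 1 - MvPolynomial.monomial m₀ 1) =
            ∑ m ∈ W.support.filter (fun m => Gen.pr d m = v),
              MvPolynomial.monomial m (W.coeff m) -
            MvPolynomial.C (A v) * MvPolynomial.monomial m₀ 1 := by
          rw [hA, map_sum, Finset.sum_mul, ← Finset.sum_sub_distrib]
          refine Finset.sum_congr rfl fun m _ => ?_
          rw [mul_sub, MvPolynomial.C_mul_monomial, mul_one]
        rw [e3, h1 v hvS, map_zero, zero_mul, sub_zero]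
      rw [e2]
      refine Finset.dvd_sum fun m hm => Dvd.dvd.mul_left ?_ _
      obtain ⟨k, hk'⟩ := hk (fun l => (m l : ℤ) - m₀ l)
        (hdiff m m₀ (by rw [(Finset.mem_filter.1 hm).2, hv0]))
      exact bin_dvd κ m m₀ k hk'
    obtain ⟨W₁, rfl⟩ := hdvd
    have hne := mul_ne_zero_iff.mp hW
    have hv1 := van_of_mul a n c ha hc κ (hind κ hκ0) W₁ hv
    have h2 := hmin W₁ hne.2 hv1
    rw [MvPolynomial.totalDegree_mul_of_isDomain hne.1 hne.2] at h2
    have := bin_degree κ hκ0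
    omega
  · push Not at hex
    apply hW
    ext m
    rw [MvPolynomial.coeff_zero]
    by_contra hm
    have hmS : m ∈ W.support := MvPolynomial.mem_support_iff.mpr hm
    have h2 := h1 (Gen.pr d m) (Finset.mem_image_of_mem _ hmS)
    rw [hA] at h2
    simp only at h2
    rw [Finset.sum_eq_single m] at h2
    · exact hm h2
    · intro m' hm' hne
      exfalso
      have h3 := hdiff m' m (Finset.mem_filter.1 hm').2
      by_cases h4 : (fun l => (m' l : ℤ) - m l) = 0
      · apply hne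
        ext l
        have := congrFun h4 l
        simp only [Pi.zero_apply] at this
        omega
      · exact hex _ h4 h3
    · intro h3
      exact (h3 (Finset.mem_filter.mpr ⟨hmS, rfl⟩)).elim

theorem norm_F (y : ℂ) (hy : ∀ i, y ≠ a i) (κ : Fin 3 → ℤ)
    (hc : ∀ l, c l ≠ 0) :
    ‖G a (ex n κ) y‖ = Real.exp (∑ l, (κ l : ℝ) * Real.log ‖F a n c y l‖) /
      ‖∏ l, c l ^ κ l‖ := by
  have hcκ : ‖∏ l, c l ^ κ l‖ ≠ 0 :=
    norm_ne_zero_iff.mpr (Finset.prod_ne_zero_iff.mpr fun l _ => zpow_ne_zero _ (hc l))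
  rw [eq_div_iff hcκ, mul_comm, ← norm_mul, ← prod_F a n c y hy κ, norm_prod, Real.exp_sum]
  refine Finset.prod_congr rfl fun l _ => ?_
  have h0 : 0 < ‖F a n c y l‖ := norm_pos_iff.mpr (F_ne_zero a n c hc y hy l)
  rw [norm_zpow, ← Real.rpow_intCast, Real.rpow_def_of_pos h0, mul_comm]

/-- the amoeba condition -/
theorem star_rat (ha : Function.Injective a) (hc : ∀ l, c l ≠ 0) (hasym : Asym n)
    (d : Fin 3 → ℝ) (hd : d ≠ 0) (S : ℝ) :
    {y : ℂ | (∀ i, y ≠ a i) ∧ (∀ l, |Real.log ‖F a n c y l‖| ≤ S) ∧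
      ∃ t : ℝ, ∀ l, Real.log ‖F a n c y l‖ = t * d l}.Finite := by
  classical
  by_cases hirr : ∀ κ κ' : Fin 3 → ℤ, ∑ l, (κ l : ℝ) * d l = 0 → ∑ l, (κ' l : ℝ) * d l = 0 →
      ∀ i j, κ i * κ' j = κ j * κ' i
  · obtain ⟨W, hW, hv, hmin⟩ := exists_min a n c
    obtain ⟨l0, hl0⟩ : ∃ l, d l ≠ 0 := by
      by_contra h
      push Not at h
      exact hd (funext h)
    set f : ℂ → ℂ := fun t => MvPolynomial.eval (fun l => Complex.exp (2 * t * d l)) W with hf
    have hdiff : Differentiable ℂ f := by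
      have h1 : f = fun t => ∑ m ∈ W.support, W.coeff m * Complex.exp (2 * t * Gen.pr d m) :=
        funext fun t => Gen.eval_exp W d t
      rw [h1]
      fun_prop
    have hne : ¬ ∀ t : ℝ, f t = 0 := fun h =>
      min_irr a n c ha hc (fun κ hκ => ex_ne_zero n hasym κ hκ) W hW hv hmin d hirr h
    set A : ℝ := S / |d l0| with hA
    have hroots : {t : ℂ | t ∈ Metric.closedBall (0 : ℂ) A ∧ f t = 0}.Finite := by
      by_contra hinf
      obtain ⟨x, -, hx⟩ := Set.Infinite.exists_accPt_of_subset_isCompact hinf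
        (isCompact_closedBall (0 : ℂ) A) (fun t ht => ht.1)
      have han : AnalyticOnNhd ℂ f Set.univ := hdiff.differentiableOn.analyticOnNhd isOpen_univ
      have hfr : ∃ᶠ z in nhdsWithin x {x}ᶜ, f z = 0 := by
        rw [accPt_iff_frequently_nhdsNE] at hx
        exact hx.mono fun z hz => hz.2
      have := han.eqOn_zero_of_preconnected_of_frequently_eq_zero isPreconnected_univ
        (Set.mem_univ x) hfr
      exact hne fun t => this (Set.mem_univ _)
    -- level sets
    have hlev : ∀ u : ℝ, {y : ℂ | (∀ i, y ≠ a i) ∧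
        ∀ l, Real.log ‖F a n c y l‖ = u * d l}.Finite := by
      intro u
      refine (no_pair a n ha hasym ![1, 0, 0] ![0, 1, 0] ![0, 0, 1] (by
          ext l
          fin_cases l <;> simp) (by
          intro h
          have := congrFun h 2
          simp at this)
        (Real.exp (u * d 0) / ‖∏ l, c l ^ (![1, 0, 0] : Fin 3 → ℤ) l‖)
        (Real.exp (u * d 1) / ‖∏ l, c l ^ (![0, 1, 0] : Fin 3 → ℤ) l‖)).subset ?_
      rintro y ⟨hy, hl⟩
      refine ⟨hy, ?_, ?_⟩
      · rw [norm_F a n c y hy _ hc]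
        congr 2
        rw [Fin.sum_univ_three]
        simp [hl]
      · rw [norm_F a n c y hy _ hc]
        congr 2
        rw [Fin.sum_univ_three]
        simp [hl]
    refine (hroots.biUnion fun u _ => hlev u.re).subset ?_
    rintro y ⟨hy, hS, t, ht⟩
    refine Set.mem_biUnion (x := (t : ℂ)) ⟨?_, ?_⟩ ⟨hy, fun l => by simpa using ht l⟩
    · rw [mem_closedBall_zero_iff, Complex.norm_real, Real.norm_eq_abs, hA,
        le_div_iff₀ (abs_pos.2 hl0), ← abs_mul, ← ht l0]
      exact hS l0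
    · rw [hf]
      simp only
      rw [← hv y y hy hy]
      congr 1
      congr 1
      funext l
      have hpos : 0 < ‖F a n c y l‖ := norm_pos_iff.mpr (F_ne_zero a n c hc y hy l)
      have hval : ‖F a n c y l‖ = Real.exp (t * d l) := by
        rw [← ht l, Real.exp_log hpos]
      rw [Complex.mul_conj, Complex.normSq_eq_norm_sq, hval, ← Real.exp_nat_mul,
        Complex.ofReal_exp]
      congr 1
      push_cast
      ring
  · push Not at hirr
    obtain ⟨κ, κ', h1, h2, i, j, hij⟩ := hirr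
    set m : Fin 3 → ℤ := ![κ 1 * κ' 2 - κ 2 * κ' 1, κ 2 * κ' 0 - κ 0 * κ' 2,
      κ 0 * κ' 1 - κ 1 * κ' 0] with hm
    have hm0 : m ≠ 0 := by
      intro h0
      have e0 := congrFun h0 0
      have e1 := congrFun h0 1
      have e2 := congrFun h0 2
      simp only [hm, Matrix.cons_val_zero, Matrix.cons_val_one, Matrix.cons_val_two,
        Matrix.head_cons, Matrix.tail_cons, Pi.zero_apply] at e0 e1 e2
      apply hij
      fin_cases i <;> fin_cases j <;>
        simp only [Fin.zero_eta, Fin.mk_one, Fin.reduceFinMk] <;>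
        first
        | rfl
        | linarith
    refine (no_pair a n ha hasym κ κ' m rfl hm0 (1 / ‖∏ l, c l ^ κ l‖)
      (1 / ‖∏ l, c l ^ κ' l‖)).subset ?_
    rintro y ⟨hy, -, t, ht⟩
    have key : ∀ κ : Fin 3 → ℤ, ∑ l, (κ l : ℝ) * d l = 0 →
        ∑ l, (κ l : ℝ) * Real.log ‖F a n c y l‖ = 0 := by
      intro κ hκ
      have : ∑ l, (κ l : ℝ) * Real.log ‖F a n c y l‖ = t * ∑ l, (κ l : ℝ) * d l := by
        rw [Finset.mul_sum]
        refine Finset.sum_congr rfl fun l _ => ?_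
        rw [ht l]
        ring
      rw [this, hκ, mul_zero]
    refine ⟨hy, ?_, ?_⟩
    · rw [norm_F a n c y hy _ hc, key κ h1, Real.exp_zero]
    · rw [norm_F a n c y hy _ hc, key κ' h2, Real.exp_zero]

end Pool.Agent.Work.MP_7da6af_nt.Rat
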